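import Pool.Agent.J4.H78.FP.Poly

set_option autoImplicit false

/-! Integer parts: exponential sums of `θ ⌊x⌋`. -/

namespace Pool.Agent.J4.H78.FP
open Finset Filter Topology
open Pool.Agent.H469R2.NK (e norm_e e_add conj_e)
open Pool.Agent.H807R2.Dav (ee ee_eq norm_ee ee_add)
open Pool.Agent.TH872.Sq (Dig P P_nonneg P_sum P_le eta_le)
open Pool.Agent.J4.H93.PD (PF weyl_deg)
open Pool.Agent.N141.SG (Tgt GoodN Ex badN badU)

/-- the second moment of Fejer's sum -/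
theorem fejer {Ω : ℕ → Finset ℕ} {p : ℕ → ℕ → ℝ} {y : ℕ → ℕ → ℝ} (hp : ∀ k, ∀ n ∈ Ω k, 0 ≤ p k n)
    (hs : ∀ k, ∑ n ∈ Ω k, p k n = 1)
    (hexp : ∀ h : ℤ, h ≠ 0 → ∀ ε : ℝ, 0 < ε → ∀ᶠ k : ℕ in atTop, ‖∑ n ∈ Ω k, ((p k n : ℝ) : ℂ) * e ((h : ℝ) * y k n)‖ ≤ ε)
    (H : ℕ) (hHN : 0 < H) :
    ∀ᶠ k : ℕ in atTop, ∑ n ∈ Ω k, p k n * ‖∑ h ∈ range H, e ((h : ℝ) * y k n)‖ ^ 2 ≤ 2 * H := by
  have hH0 : (0 : ℝ) < H := by exact_mod_cast hHN
  have hall : ∀ᶠ k : ℕ in atTop, ∀ x ∈ ((range H) ×ˢ (range H)).filter (fun x => x.1 ≠ x.2),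
      ‖∑ n ∈ Ω k, ((p k n : ℝ) : ℂ) * e ((((x.1 : ℤ) - (x.2 : ℤ) : ℤ) : ℝ) * y k n)‖ ≤ 1 / H := by
    rw [Finset.eventually_all]
    intro x hx
    rw [mem_filter] at hx
    have hne : (x.1 : ℤ) - (x.2 : ℤ) ≠ 0 := by
      intro h
      exact hx.2 (by omega)
    exact hexp _ hne (1 / H) (by positivity)
  filter_upwards [hall] with k hk
  have h2 : ∀ n, ((‖∑ h ∈ range H, e ((h : ℝ) * y k n)‖ ^ 2 : ℝ) : ℂ) =
      ∑ x ∈ (range H) ×ˢ (range H), e ((((x.1 : ℤ) - (x.2 : ℤ) : ℤ) : ℝ) * y k n) := by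
    intro n
    rw [Complex.ofReal_pow, ← Complex.mul_conj', map_sum, sum_mul_sum, ← sum_product']
    apply sum_congr rfl
    intro x _
    rw [conj_e, ← e_add]
    congr 1
    push_cast
    ring
  have h3 : ((∑ n ∈ Ω k, p k n * ‖∑ h ∈ range H, e ((h : ℝ) * y k n)‖ ^ 2 : ℝ) : ℂ) =
      ∑ x ∈ (range H) ×ˢ (range H), ∑ n ∈ Ω k, ((p k n : ℝ) : ℂ) * e ((((x.1 : ℤ) - (x.2 : ℤ) : ℤ) : ℝ) * y k n) := by
    rw [sum_comm, Complex.ofReal_sum]
    apply sum_congr rfl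
    intro n _
    rw [← mul_sum, Complex.ofReal_mul, h2 n]
  have hnn : 0 ≤ ∑ n ∈ Ω k, p k n * ‖∑ h ∈ range H, e ((h : ℝ) * y k n)‖ ^ 2 :=
    sum_nonneg fun n hn => mul_nonneg (hp k n hn) (by positivity)
  rw [← Real.norm_of_nonneg hnn, ← Complex.norm_real, h3]
  refine (norm_sum_le _ _).trans ?_
  rw [← sum_filter_add_sum_filter_not ((range H) ×ˢ (range H)) (fun x => x.1 ≠ x.2)]
  have h5 : ∑ x ∈ ((range H) ×ˢ (range H)).filter (fun x => x.1 ≠ x.2),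
      ‖∑ n ∈ Ω k, ((p k n : ℝ) : ℂ) * e ((((x.1 : ℤ) - (x.2 : ℤ) : ℤ) : ℝ) * y k n)‖ ≤ H := by
    calc _ ≤ ∑ _x ∈ ((range H) ×ˢ (range H)).filter (fun x => x.1 ≠ x.2), 1 / (H : ℝ) := sum_le_sum fun x hx => hk x hx
      _ = ((((range H) ×ˢ (range H)).filter (fun x => x.1 ≠ x.2)).card : ℝ) * (1 / H) := by rw [sum_const, nsmul_eq_mul]
      _ ≤ ((H : ℝ) * H) * (1 / H) := by
        apply mul_le_mul_of_nonneg_right _ (by positivity)
        have := card_filter_le ((range H) ×ˢ (range H)) (fun x => x.1 ≠ x.2)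
        rw [card_product, card_range] at this
        exact_mod_cast this
      _ = H := by field_simp
  have h6 : ∑ x ∈ ((range H) ×ˢ (range H)).filter (fun x => ¬ x.1 ≠ x.2),
      ‖∑ n ∈ Ω k, ((p k n : ℝ) : ℂ) * e ((((x.1 : ℤ) - (x.2 : ℤ) : ℤ) : ℝ) * y k n)‖ ≤ H := by
    have e5 : ∀ x ∈ ((range H) ×ˢ (range H)).filter (fun x => ¬ x.1 ≠ x.2),
        ‖∑ n ∈ Ω k, ((p k n : ℝ) : ℂ) * e ((((x.1 : ℤ) - (x.2 : ℤ) : ℤ) : ℝ) * y k n)‖ ≤ 1 := by
      intro x _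
      refine (norm_sum_le _ _).trans ?_
      rw [← hs k]
      apply sum_le_sum
      intro n hn
      rw [norm_mul, norm_e, mul_one, Complex.norm_real, Real.norm_of_nonneg (hp k n hn)]
    refine (sum_le_sum e5).trans ?_
    rw [sum_const, nsmul_eq_mul, mul_one]
    have e6 : ((range H) ×ˢ (range H)).filter (fun x => ¬ x.1 ≠ x.2) ⊆ (range H).image fun h => (h, h) := by
      intro x hx
      rw [mem_filter, mem_product] at hx
      rw [mem_image]
      refine ⟨x.1, hx.1.1, ?_⟩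
      ext
      · rfl
      · exact not_not.1 hx.2
    have e7 := (card_le_card e6).trans card_image_le
    rw [card_range] at e7
    exact_mod_cast e7
  linarith

lemma e_re (x : ℝ) : (e x).re = Real.cos (2 * Real.pi * x) := by
  unfold Pool.Agent.H469R2.NK.e
  rw [Complex.exp_ofReal_mul_I_re]

/-- Fejer's sum is large near the integers -/
theorem fejer_low (H : ℕ) (hH : 0 < H) (y : ℝ) (hy : 1 - 1 / (8 * (H : ℝ)) < Int.fract y) :
    (H : ℝ) ^ 2 / 4 ≤ ‖∑ h ∈ range H, e ((h : ℝ) * y)‖ ^ 2 := by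
  have hH0 : (0 : ℝ) < H := by exact_mod_cast hH
  have h1 : (H : ℝ) / 2 ≤ (∑ h ∈ range H, e ((h : ℝ) * y)).re := by
    rw [Complex.re_sum]
    have h2 : ∀ h ∈ range H, (1 : ℝ) / 2 ≤ (e ((h : ℝ) * y)).re := by
      intro h hh
      rw [mem_range] at hh
      rw [e_re]
      obtain ⟨t, ht⟩ : ∃ t : ℝ, t = 1 - Int.fract y := ⟨_, rfl⟩
      have ht0 : 0 < t := by rw [ht]; have := Int.fract_lt_one y; linarith
      have ht1 : t < 1 / (8 * (H : ℝ)) := by rw [ht]; linarith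
      have e1 : 2 * Real.pi * ((h : ℝ) * y) = (((h : ℤ) * (⌊y⌋ + 1) : ℤ) : ℝ) * (2 * Real.pi) - 2 * Real.pi * (h * t) := by
        have : y = ⌊y⌋ + 1 - t := by
          rw [ht]
          have := Int.floor_add_fract y
          linarith
        nth_rewrite 1 [this]
        push_cast
        ring
      rw [e1, ← Real.cos_neg, neg_sub, Real.cos_sub_int_mul_two_pi]
      have h3 : (h : ℝ) * t ≤ 1 / 8 := by
        have h4 : (h : ℝ) ≤ H := by exact_mod_cast hh.le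
        calc (h : ℝ) * t ≤ H * (1 / (8 * H)) := mul_le_mul h4 ht1.le ht0.le hH0.le
          _ = 1 / 8 := by field_simp
      have h5 : 0 ≤ (h : ℝ) * t := mul_nonneg (Nat.cast_nonneg h) ht0.le
      have hpi := Real.pi_pos
      rw [← Real.cos_pi_div_three]
      apply Real.cos_le_cos_of_nonneg_of_le_pi
      · positivity
      · linarith
      · nlinarith
    calc (H : ℝ) / 2 = ∑ _h ∈ range H, (1 : ℝ) / 2 := by rw [sum_const, card_range, nsmul_eq_mul]; ring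
      _ ≤ _ := sum_le_sum h2
  have h2 : (H : ℝ) / 2 ≤ ‖∑ h ∈ range H, e ((h : ℝ) * y)‖ := h1.trans (Complex.re_le_norm _)
  calc (H : ℝ) ^ 2 / 4 = ((H : ℝ) / 2) ^ 2 := by ring
    _ ≤ _ := pow_le_pow_left₀ (by positivity) h2 2

/-- the modified fractional part -/
noncomputable def mf (δ v : ℝ) : ℝ := min v ((1 - v) * (1 - δ) / δ)

/-- approximation by trigonometric polynomials -/
theorem trig (θ δ ε : ℝ) (hδ : 0 < δ) (hδ1 : δ < 1) (hε : 0 < ε) : ∃ (S : Finset ℤ) (c : ℤ → ℂ), ∀ u : ℝ,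
    ‖e (-θ * mf δ (Int.fract u)) - ∑ h ∈ S, c h * e (h * u)‖ ≤ ε := by
  have : Fact ((0 : ℝ) < 1) := ⟨one_pos⟩
  obtain ⟨g, hg⟩ : ∃ g : ℝ → ℂ, ∀ v, g v = e (-θ * mf δ v) := ⟨fun v => e (-θ * mf δ v), fun _ => rfl⟩
  have hcont : Continuous g := by
    have h1 : g = fun v => e (-θ * mf δ v) := funext hg
    rw [h1]
    unfold Pool.Agent.H469R2.NK.e mf
    fun_prop
  have hper : g 0 = g (0 + 1) := by
    have h0 : mf δ 0 = 0 := by
      unfold mf
      apply min_eq_left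
      rw [sub_zero, one_mul]
      exact div_nonneg (by linarith) hδ.le
    have h1 : mf δ 1 = 0 := by
      unfold mf
      rw [sub_self, zero_mul, zero_div]
      exact min_eq_right zero_le_one
    rw [zero_add, hg, hg, h0, h1]
  obtain ⟨f, hf⟩ : ∃ f : C(AddCircle (1 : ℝ), ℂ), ∀ z, f z = AddCircle.liftIco 1 0 g z :=
    ⟨⟨AddCircle.liftIco 1 0 g, AddCircle.liftIco_continuous hper hcont.continuousOn⟩, fun _ => rfl⟩
  have hmem : f ∈ (Submodule.span ℂ (Set.range (@fourier (1 : ℝ)))).topologicalClosure := by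
    rw [span_fourier_closure_eq_top]
    exact Submodule.mem_top
  rw [← SetLike.mem_coe, Submodule.topologicalClosure_coe, Metric.mem_closure_iff] at hmem
  obtain ⟨q, hq, hd⟩ := hmem ε hε
  rw [SetLike.mem_coe, Finsupp.mem_span_range_iff_exists_finsupp] at hq
  obtain ⟨c, hc⟩ := hq
  refine ⟨c.support, c, fun u => ?_⟩
  have e1 : f (u : AddCircle (1 : ℝ)) = e (-θ * mf δ (Int.fract u)) := by
    have h1 : ((Int.fract u : ℝ) : AddCircle (1 : ℝ)) = (u : AddCircle (1 : ℝ)) := by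
      rw [← sub_eq_zero, ← AddCircle.coe_sub, AddCircle.coe_eq_zero_iff]
      refine ⟨-⌊u⌋, ?_⟩
      rw [zsmul_eq_mul, mul_one]
      have := Int.floor_add_fract u
      push_cast
      linarith
    rw [← h1, hf, AddCircle.liftIco_coe_apply, hg]
    rw [zero_add]
    exact ⟨Int.fract_nonneg u, Int.fract_lt_one u⟩
  have e2 : q (u : AddCircle (1 : ℝ)) = ∑ h ∈ c.support, c h * e (h * u) := by
    rw [← hc, Finsupp.sum, ContinuousMap.sum_apply]
    apply sum_congr rfl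
    intro h _
    rw [ContinuousMap.smul_apply, smul_eq_mul, fourier_coe_apply]
    congr 1
    unfold Pool.Agent.H469R2.NK.e
    congr 1
    push_cast
    ring
  rw [← e1, ← e2, ← ContinuousMap.sub_apply]
  refine (ContinuousMap.norm_coe_le_norm _ _).trans ?_
  rw [← dist_eq_norm]
  exact hd.le

/-- **exponential sums of integer parts** -/
theorem floor_exp {Ω : ℕ → Finset ℕ} {p : ℕ → ℕ → ℝ} {x : ℕ → ℕ → ℝ} (hp : ∀ k, ∀ n ∈ Ω k, 0 ≤ p k n)
    (hs : ∀ k, ∑ n ∈ Ω k, p k n = 1)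
    (hexp : ∀ γ : ℝ, γ ≠ 0 → IsAlgebraic ℤ γ → ∀ ε : ℝ, 0 < ε → ∀ᶠ k : ℕ in atTop,
      ‖∑ n ∈ Ω k, ((p k n : ℝ) : ℂ) * e (γ * x k n)‖ ≤ ε)
    (θ : ℝ) (hθ : Irrational θ) (ha : IsAlgebraic ℤ θ) (ε : ℝ) (hε : 0 < ε) :
    ∀ᶠ k : ℕ in atTop, ‖∑ n ∈ Ω k, ((p k n : ℝ) : ℂ) * e (θ * (⌊x k n⌋ : ℝ))‖ ≤ ε := by
  classical
  obtain ⟨H, hH⟩ := exists_nat_gt (48 / ε)
  have hH0 : (0 : ℝ) < H := lt_trans (by positivity) hH
  have hHN : 0 < H := by exact_mod_cast hH0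
  have hH1 : (1 : ℝ) ≤ H := by exact_mod_cast hHN
  obtain ⟨δ, hδ⟩ : ∃ δ : ℝ, δ = 1 / (8 * (H : ℝ)) := ⟨_, rfl⟩
  have hδ0 : 0 < δ := by rw [hδ]; positivity
  have hδ1 : δ < 1 := by
    rw [hδ, div_lt_one (by positivity)]
    linarith
  obtain ⟨S, c, hSc⟩ := trig θ δ (ε / 3) hδ0 hδ1 (by positivity)
  obtain ⟨C, hC⟩ : ∃ C : ℝ, C = 1 + ∑ h ∈ S, ‖c h‖ := ⟨_, rfl⟩
  have hC0 : 0 < C := by
    rw [hC]
    have : 0 ≤ ∑ h ∈ S, ‖c h‖ := sum_nonneg fun _ _ => norm_nonneg _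
    linarith
  have hall : ∀ᶠ k : ℕ in atTop, ∀ h ∈ S, ‖∑ n ∈ Ω k, ((p k n : ℝ) : ℂ) * e ((θ + (h : ℝ)) * x k n)‖ ≤ ε / 3 / C := by
    rw [Finset.eventually_all]
    intro h _
    have h1 : Irrational (θ + (h : ℝ)) := hθ.add_intCast h
    exact hexp _ h1.ne_zero (ha.add (isAlgebraic_intCast (R := ℤ) (A := ℝ) h)) _ (by positivity)
  have hfej := fejer (y := x) hp hs (fun h hh ε hε => hexp h (by exact_mod_cast hh) (isAlgebraic_intCast (R := ℤ) (A := ℝ) h) ε hε) H hHN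
  filter_upwards [hall, hfej] with k hk hF
  -- the probability of the exceptional set
  have hexc : ∑ n ∈ (Ω k).filter (fun n => 1 - δ < Int.fract (x k n)), p k n ≤ ε / 6 := by
    have h1 : (∑ n ∈ (Ω k).filter (fun n => 1 - δ < Int.fract (x k n)), p k n) * ((H : ℝ) ^ 2 / 4) ≤ 2 * H := by
      refine le_trans ?_ hF
      rw [sum_mul]
      refine (sum_le_sum fun n hn => ?_).trans (sum_le_sum_of_subset_of_nonneg (filter_subset _ _)
        fun n hn _ => mul_nonneg (hp k n hn) (by positivity))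
      rw [mem_filter] at hn
      apply mul_le_mul_of_nonneg_left _ (hp k n hn.1)
      apply fejer_low H hHN
      rw [← hδ]
      exact hn.2
    have h2 : (∑ n ∈ (Ω k).filter (fun n => 1 - δ < Int.fract (x k n)), p k n) * H ≤ 8 := by
      have : ((∑ n ∈ (Ω k).filter (fun n => 1 - δ < Int.fract (x k n)), p k n) * H) * H ≤ 8 * H := by
        calc _ = ((∑ n ∈ (Ω k).filter (fun n => 1 - δ < Int.fract (x k n)), p k n) * ((H : ℝ) ^ 2 / 4)) * 4 := by ring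
          _ ≤ (2 * H) * 4 := by linarith
          _ = 8 * H := by ring
      exact le_of_mul_le_mul_right this hH0
    rw [div_lt_iff₀ hε] at hH
    have h3 : (∑ n ∈ (Ω k).filter (fun n => 1 - δ < Int.fract (x k n)), p k n) * H ≤ ε / 6 * H := by
      linarith
    exact le_of_mul_le_mul_right h3 hH0
  -- the decomposition
  have hdec : ∀ n ∈ Ω k, ‖e (θ * (⌊x k n⌋ : ℝ)) - e (θ * x k n) * ∑ h ∈ S, c h * e (h * x k n)‖ ≤
      ε / 3 + if 1 - δ < Int.fract (x k n) then 2 else 0 := by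
    intro n _
    have e1 : e (θ * (⌊x k n⌋ : ℝ)) = e (θ * x k n) * e (-θ * Int.fract (x k n)) := by
      rw [← e_add]
      congr 1
      have := Int.floor_add_fract (x k n)
      have h2 : (⌊x k n⌋ : ℝ) = x k n - Int.fract (x k n) := by linarith
      rw [h2]
      ring
    rw [e1, ← mul_sub, norm_mul, norm_e, one_mul]
    have h1 := hSc (x k n)
    have h2 : ‖e (-θ * Int.fract (x k n)) - e (-θ * mf δ (Int.fract (x k n)))‖ ≤ if 1 - δ < Int.fract (x k n) then 2 else 0 := by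
      split_ifs with hc
      · refine (norm_sub_le _ _).trans ?_
        rw [norm_e, norm_e]
        norm_num
      · push Not at hc
        have h3 : mf δ (Int.fract (x k n)) = Int.fract (x k n) := by
          unfold mf
          apply min_eq_left
          rw [le_div_iff₀ hδ0]
          nlinarith
        rw [h3, sub_self, norm_zero]
    have e2 : e (-θ * Int.fract (x k n)) - ∑ h ∈ S, c h * e (h * x k n) =
        (e (-θ * Int.fract (x k n)) - e (-θ * mf δ (Int.fract (x k n)))) +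
        (e (-θ * mf δ (Int.fract (x k n))) - ∑ h ∈ S, c h * e (h * x k n)) := by ring
    rw [e2]
    refine (norm_add_le _ _).trans ?_
    linarith
  have h1 : ‖∑ n ∈ Ω k, ((p k n : ℝ) : ℂ) * e (θ * (⌊x k n⌋ : ℝ)) -
      ∑ n ∈ Ω k, ((p k n : ℝ) : ℂ) * (e (θ * x k n) * ∑ h ∈ S, c h * e (h * x k n))‖ ≤ ε / 3 + 2 * (ε / 6) := by
    rw [← sum_sub_distrib]
    refine (norm_sum_le _ _).trans ?_
    calc ∑ n ∈ Ω k, ‖((p k n : ℝ) : ℂ) * e (θ * (⌊x k n⌋ : ℝ)) -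
          ((p k n : ℝ) : ℂ) * (e (θ * x k n) * ∑ h ∈ S, c h * e (h * x k n))‖ ≤
        ∑ n ∈ Ω k, p k n * (ε / 3 + if 1 - δ < Int.fract (x k n) then 2 else 0) := by
          apply sum_le_sum
          intro n hn
          rw [← mul_sub, norm_mul, Complex.norm_real, Real.norm_of_nonneg (hp k n hn)]
          exact mul_le_mul_of_nonneg_left (hdec n hn) (hp k n hn)
      _ = ε / 3 + 2 * ∑ n ∈ (Ω k).filter (fun n => 1 - δ < Int.fract (x k n)), p k n := by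
          simp only [mul_add, sum_add_distrib]
          rw [← sum_mul, hs, one_mul, sum_filter, mul_sum]
          congr 1
          apply sum_congr rfl
          intro n _
          split_ifs <;> ring
      _ ≤ _ := by linarith
  have h2 : ‖∑ n ∈ Ω k, ((p k n : ℝ) : ℂ) * (e (θ * x k n) * ∑ h ∈ S, c h * e (h * x k n))‖ ≤ ε / 3 := by
    have e1 : ∑ n ∈ Ω k, ((p k n : ℝ) : ℂ) * (e (θ * x k n) * ∑ h ∈ S, c h * e (h * x k n)) =
        ∑ h ∈ S, c h * ∑ n ∈ Ω k, ((p k n : ℝ) : ℂ) * e ((θ + (h : ℝ)) * x k n) := by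
      simp only [mul_sum]
      rw [sum_comm]
      apply sum_congr rfl
      intro h _
      apply sum_congr rfl
      intro n _
      rw [add_mul, e_add]
      ring
    rw [e1]
    refine (norm_sum_le _ _).trans ?_
    calc ∑ h ∈ S, ‖c h * ∑ n ∈ Ω k, ((p k n : ℝ) : ℂ) * e ((θ + (h : ℝ)) * x k n)‖ ≤ ∑ h ∈ S, ‖c h‖ * (ε / 3 / C) := by
          apply sum_le_sum
          intro h hh
          rw [norm_mul]
          exact mul_le_mul_of_nonneg_left (hk h hh) (norm_nonneg _)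
      _ = (∑ h ∈ S, ‖c h‖) * (ε / 3 / C) := by rw [sum_mul]
      _ ≤ C * (ε / 3 / C) := by
          apply mul_le_mul_of_nonneg_right _ (by positivity)
          rw [hC]
          linarith
      _ = ε / 3 := by field_simp
  have h3 := norm_le_norm_add_norm_sub' (∑ n ∈ Ω k, ((p k n : ℝ) : ℂ) * e (θ * (⌊x k n⌋ : ℝ)))
    (∑ n ∈ Ω k, ((p k n : ℝ) : ℂ) * (e (θ * x k n) * ∑ h ∈ S, c h * e (h * x k n)))
  linarith

/-- admissible data: laws of the digits, a real polynomial with the leading coefficient `α` and the integer parts of its values -/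
def AdmF (b : ℕ) (η : ℝ) (d : ℕ) (α : ℝ) (k : ℕ) (x : (ℕ → ℕ → ℝ) × Polynomial ℝ × (ℕ → ℕ)) : Prop :=
  Dig b η x.1 ∧ x.2.1.natDegree = d ∧ x.2.1.leadingCoeff = α ∧ ∀ n < b ^ k, (x.2.2 n : ℤ) = ⌊x.2.1.eval (n : ℝ)⌋

/-- **integer parts of real polynomials with a transcendental leading coefficient at integers with random digits** -/
theorem digitsF (b : ℕ) (hb : 2 ≤ b) (η : ℝ) (hη : 0 < η) (d : ℕ) (hd : 1 ≤ d) (α : ℝ) (hα : Transcendental ℤ α) :
    (∃ k₀ : ℕ, ∀ k, k₀ ≤ k → ∀ x, AdmF b η d α k x →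
      1 / 10000 ^ 23 ≤ pr (range (b ^ k)) (P b x.1 0 k) (fun n => 1 ≤ x.2.2 n ∧ Tgt ((x.2.2 n : ℕ) : ℤ))) ∧
    (∀ r : ℕ, 10 ≤ r → ∀ δ : ℝ, 0 < δ → ∃ k₀ : ℕ, ∀ k, k₀ ≤ k → ∀ x, AdmF b η d α k x →
      pr (range (b ^ k)) (P b x.1 0 k) (fun n => ¬ GoodN r (x.2.2 n)) ≤ badN r + δ) ∧
    (∀ r : ℕ, 10 ≤ r → ∀ δ : ℝ, 0 < δ → ∃ k₀ : ℕ, ∀ k, k₀ ≤ k → ∀ x, AdmF b η d α k x →
      pr (range (b ^ k)) (P b x.1 0 k) (fun n => ¬ Ex r (x.2.2 n)) ≤ badU r + δ) := by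
  have main := fun (κ : ℕ → ℕ) (x : ℕ → (ℕ → ℕ → ℝ) × Polynomial ℝ × (ℕ → ℕ)) (hκ : ∀ j, j ≤ κ j)
      (hx : ∀ j, AdmF b η d α (κ j) (x j)) =>
    nat_laws (Ω := fun j => range (b ^ κ j)) (p := fun j => P b (x j).1 0 (κ j))
      (m := fun j n => (x j).2.2 n) (fun j n _ => P_nonneg (hx j).1 0 (κ j) n)
      (fun j => P_sum (by omega) (hx j).1 0 (κ j)) (by
      intro θ hθ ha ε hε
      have h1 := floor_exp (Ω := fun j => range (b ^ κ j)) (p := fun j => P b (x j).1 0 (κ j))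
        (x := fun j n => (x j).2.1.eval (n : ℝ)) (fun j n _ => P_nonneg (hx j).1 0 (κ j) n)
        (fun j => P_sum (by omega) (hx j).1 0 (κ j)) (by
          intro γ hγ hγa ε hε
          have hirr : Irrational (γ * α) := by
            rintro ⟨q, hq⟩
            apply hα
            have h2 : α = (q : ℝ) * γ⁻¹ := by
              rw [hq]
              field_simp
            rw [h2]
            have h3 : IsAlgebraic ℤ (q : ℝ) := by
              exact (IsFractionRing.isAlgebraic_iff ℤ ℚ ℝ).2 (isAlgebraic_algebraMap (R := ℚ) (A := ℝ) q)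
            exact h3.mul hγa.inv
          obtain ⟨k₀, hk₀⟩ := polyE b hb η hη d hd (γ * α) hirr ε hε
          filter_upwards [eventually_ge_atTop k₀] with j hj
          obtain ⟨h1, h2, h3, h4⟩ := hx j
          have hpf := pf_of (x j).2.1 γ
          rw [h2, h3] at hpf
          have h5 := hk₀ (κ j) (hj.trans (hκ j)) (x j).1 h1 _ hpf
          simp only [e_eq]
          exact h5) θ hθ ha ε hε
      filter_upwards [h1] with j hj
      have e1 : ∑ n ∈ range (b ^ κ j), ((P b (x j).1 0 (κ j) n : ℝ) : ℂ) * e (θ * (((x j).2.2 n : ℤ) : ℝ)) =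
          ∑ n ∈ range (b ^ κ j), ((P b (x j).1 0 (κ j) n : ℝ) : ℂ) * e (θ * (⌊(x j).2.1.eval (n : ℝ)⌋ : ℝ)) := by
        apply sum_congr rfl
        intro n hn
        rw [(hx j).2.2.2 n (mem_range.1 hn)]
      rw [e1]
      exact hj)
  refine ⟨?_, fun r hr δ hδ => ?_, fun r hr δ hδ => ?_⟩
  · exact unif2 (AdmF b η d α) _ (fun κ x hκ hx => (main κ x hκ hx).1.exists)
  · exact unif2 (AdmF b η d α) _ (fun κ x hκ hx => ((main κ x hκ hx).2.1 r hr δ hδ).exists)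
  · exact unif2 (AdmF b η d α) _ (fun κ x hκ hx => ((main κ x hκ hx).2.2 r hr δ hδ).exists)

end Pool.Agent.J4.H78.FP
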