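import Pool.Agent.TH872.Sq.W2
import Pool.Agent.N141.SG.Seq7

set_option autoImplicit false

/-! Sequences of integers with weights whose exponential sums are small at all irrational algebraic frequencies;
integers with independent random digits. -/

namespace Pool.Agent.J4.H78.FP
open Finset Filter Topology
open Pool.Agent.H469R2.NK (e norm_e e_add)
open Pool.Agent.H807R2.Dav (ee ee_eq norm_ee)
open Pool.Agent.TH872.Sq (Dig P P_nonneg P_sum P_le char_bound g0 g0_bounds gg nn nn_nonneg nn_le nn_half gg_nonneg gg_le_one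
  eta_le)
open Pool.Agent.N141.SG (SmallTo AlgSmall Tgt GoodN Ex badN badU near_seq one_seq tgt_of_freq)

/-- the distances of `b ^ j y` to the integers are not small infinitely often -/
theorem far (b : ℕ) (hb : 2 ≤ b) (y : ℝ) (hy : Irrational y) (i : ℕ) : ∃ j, i ≤ j ∧ 1 / (2 * (b : ℝ)) ≤ nn ((b : ℝ) ^ j * y) := by
  by_contra hcon
  push Not at hcon
  have hb2 : (2 : ℝ) ≤ b := by exact_mod_cast hb
  have hb0 : (0 : ℝ) < b := by linarith
  have hstep : ∀ j, i ≤ j → nn ((b : ℝ) ^ (j + 1) * y) = b * nn ((b : ℝ) ^ j * y) := by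
    intro j hj
    have h1 := hcon j hj
    have h2 := hcon (j + 1) (by omega)
    obtain ⟨m, hm⟩ : ∃ m : ℤ, m = round ((b : ℝ) ^ j * y) := ⟨_, rfl⟩
    have e1 : nn ((b : ℝ) ^ j * y) = |(b : ℝ) ^ j * y - m| := by rw [hm]; rfl
    have h3 : |(b : ℝ) ^ (j + 1) * y - ((b * m : ℤ) : ℝ)| < 1 / 2 := by
      have : (b : ℝ) ^ (j + 1) * y - ((b * m : ℤ) : ℝ) = b * ((b : ℝ) ^ j * y - m) := by
        push_cast
        ring
      rw [this, abs_mul, abs_of_pos hb0, ← e1]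
      calc (b : ℝ) * nn ((b : ℝ) ^ j * y) < b * (1 / (2 * (b : ℝ))) := mul_lt_mul_of_pos_left h1 hb0
        _ = 1 / 2 := by field_simp
    have h4 : round ((b : ℝ) ^ (j + 1) * y) = b * m := by
      have h5 := abs_sub_round ((b : ℝ) ^ (j + 1) * y)
      have h6 : |((round ((b : ℝ) ^ (j + 1) * y) - b * m : ℤ) : ℝ)| < 1 := by
        push_cast at h3 ⊢
        rw [abs_lt] at h3 ⊢
        rw [abs_le] at h5
        constructor <;> linarith [h3.1, h3.2, h5.1, h5.2]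
      have h7 : |round ((b : ℝ) ^ (j + 1) * y) - b * m| < 1 := by exact_mod_cast h6
      have := Int.abs_lt_one_iff.1 h7
      omega
    rw [e1]
    unfold nn
    rw [h4]
    have : (b : ℝ) ^ (j + 1) * y - ((b * m : ℤ) : ℝ) = b * ((b : ℝ) ^ j * y - m) := by
      push_cast
      ring
    rw [this, abs_mul, abs_of_pos hb0]
  have hpow : ∀ n, nn ((b : ℝ) ^ (i + n) * y) = (b : ℝ) ^ n * nn ((b : ℝ) ^ i * y) := by
    intro n
    induction n with
    | zero => simp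
    | succ n ih =>
      rw [← add_assoc, hstep (i + n) (by omega), ih]
      ring
  have hpos : 0 < nn ((b : ℝ) ^ i * y) := by
    rcases (nn_nonneg ((b : ℝ) ^ i * y)).lt_or_eq with h | h
    · exact h
    · exfalso
      have h1 : Irrational (((b ^ i : ℕ) : ℝ) * y) := hy.natCast_mul (by positivity)
      unfold nn at h
      have h2 : (b : ℝ) ^ i * y = round ((b : ℝ) ^ i * y) := by
        have := abs_eq_zero.1 h.symm
        linarith
      apply h1.ne_int (round ((b : ℝ) ^ i * y))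
      push_cast
      exact h2
  obtain ⟨n, hn⟩ := pow_unbounded_of_one_lt (1 / nn ((b : ℝ) ^ i * y)) (show (1 : ℝ) < b by linarith)
  have h1 := hpow n
  have h2 := nn_half ((b : ℝ) ^ (i + n) * y)
  rw [h1] at h2
  rw [div_lt_iff₀ hpos] at hn
  linarith

/-- the products tend to zero -/
theorem prod_small (b : ℕ) (hb : 2 ≤ b) (γ : ℝ) (hγ : 0 ≤ γ) (hγ1 : γ < 1) (y : ℝ) (hy : Irrational y) (ε : ℝ) (hε : 0 < ε) :
    ∃ k₀ : ℕ, ∀ k, k₀ ≤ k → ∏ j ∈ range k, gg b γ ((b : ℝ) ^ j * y) ≤ ε := by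
  have hnn : ∀ k, 0 ≤ ∏ j ∈ range k, gg b γ ((b : ℝ) ^ j * y) := fun k => prod_nonneg fun j _ => gg_nonneg b γ _ hγ
  have hanti : Antitone fun k => ∏ j ∈ range k, gg b γ ((b : ℝ) ^ j * y) := by
    apply antitone_nat_of_succ_le
    intro k
    rw [prod_range_succ]
    exact mul_le_of_le_one_right (hnn k) (gg_le_one b γ _ hγ1.le)
  have key : ∀ n : ℕ, ∃ k, ∏ j ∈ range k, gg b γ ((b : ℝ) ^ j * y) ≤ γ ^ n := by
    intro n
    induction n with
    | zero => exact ⟨0, by simp⟩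
    | succ n ih =>
      obtain ⟨k, hk⟩ := ih
      obtain ⟨j, hj, hf⟩ := far b hb y hy k
      refine ⟨j + 1, ?_⟩
      rw [prod_range_succ, pow_succ]
      have : gg b γ ((b : ℝ) ^ j * y) = γ := by
        unfold gg
        rw [if_pos hf]
      rw [this]
      exact mul_le_mul_of_nonneg_right ((hanti hj).trans hk) hγ
  obtain ⟨n, hn⟩ := exists_pow_lt_of_lt_one hε hγ1
  obtain ⟨k, hk⟩ := key n
  exact ⟨k, fun l hl => (hanti hl).trans (hk.trans hn.le)⟩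

/-- exponential sums over integers with random digits at an irrational frequency -/
theorem lin (b : ℕ) (hb : 2 ≤ b) (η : ℝ) (hη : 0 < η) (t : ℝ) (ht : Irrational t) (ε : ℝ) (hε : 0 < ε) :
    ∃ k₀ : ℕ, ∀ k, k₀ ≤ k → ∀ w, Dig b η w → ‖∑ n ∈ range (b ^ k), ((P b w 0 k n : ℝ) : ℂ) * ee (n * t)‖ ≤ ε := by
  by_cases hη1 : η ≤ 1
  · obtain ⟨h0, h1⟩ := g0_bounds b hb η hη hη1
    have hirr : Irrational ((b.factorial : ℝ) * t) := ht.natCast_mul b.factorial_ne_zero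
    obtain ⟨k₀, hk₀⟩ := prod_small b hb (g0 b η) h0 h1 _ hirr ε hε
    exact ⟨k₀, fun k hk w hw => (char_bound hb hη hw 0 k t).trans (hk₀ k hk)⟩
  · exact ⟨0, fun k _ w hw => absurd (eta_le hw) hη1⟩

/-! ### Weights -/

open Classical in
/-- the probability of the event `E` -/
noncomputable def pr (Ω : Finset ℕ) (p : ℕ → ℝ) (E : ℕ → Prop) : ℝ := ∑ n ∈ Ω.filter E, p n

theorem pr_split {Ω : Finset ℕ} {p : ℕ → ℝ} (hp : ∀ n ∈ Ω, 0 ≤ p n) {A B C : ℕ → Prop} (h : ∀ n ∈ Ω, A n → B n ∨ C n) :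
    pr Ω p A ≤ pr Ω p B + pr Ω p C := by
  classical
  unfold pr
  have hsub : Ω.filter A ⊆ Ω.filter B ∪ Ω.filter C := by
    intro n hn
    rw [mem_filter] at hn
    rw [mem_union, mem_filter, mem_filter]
    rcases h n hn.1 hn.2 with h | h
    · exact Or.inl ⟨hn.1, h⟩
    · exact Or.inr ⟨hn.1, h⟩
  have hnn : ∀ n ∈ Ω.filter B ∪ Ω.filter C, 0 ≤ p n := by
    intro n hn
    rw [mem_union, mem_filter, mem_filter] at hn
    rcases hn with hn | hn
    · exact hp n hn.1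
    · exact hp n hn.1
  refine (sum_le_sum_of_subset_of_nonneg hsub fun n hn _ => hnn n hn).trans ?_
  rw [← sum_union_inter]
  refine le_add_of_nonneg_right (sum_nonneg fun n hn => ?_)
  rw [mem_inter, mem_filter] at hn
  exact hp n hn.1.1

theorem pr_mono {Ω : Finset ℕ} {p : ℕ → ℝ} (hp : ∀ n ∈ Ω, 0 ≤ p n) {A B : ℕ → Prop} (h : ∀ n ∈ Ω, A n → B n) :
    pr Ω p A ≤ pr Ω p B := by
  classical
  unfold pr
  apply sum_le_sum_of_subset_of_nonneg
  · intro n hn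
    rw [mem_filter] at hn ⊢
    exact ⟨hn.1, h n hn.1 hn.2⟩
  · intro n hn _
    exact hp n (mem_filter.1 hn).1

section weights
variable (Ω : ℕ → Finset ℕ) (p : ℕ → ℕ → ℝ) (v : ℕ → ℕ → ℤ)

/-- the scale -/
def MM (k : ℕ) : ℕ := (k + 1) * ((Ω k).card + 1)

/-- multiplicities -/
noncomputable def aa (k n : ℕ) : ℕ := ⌊(MM Ω k : ℝ) * p k n⌋₊

/-- the set with multiplicities -/
noncomputable def ss (k : ℕ) : Finset ℕ :=
  ((Ω k).sigma fun n => range (aa Ω p k n)).image fun x : (_ : ℕ) × ℕ => Nat.pair k (Nat.pair x.1 x.2)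

/-- the values -/
def uu (t : ℕ) : ℤ := v t.unpair.1 t.unpair.2.unpair.1

theorem sum_ss {β : Type} [AddCommMonoid β] (F : ℤ → β) (k : ℕ) :
    ∑ t ∈ ss Ω p k, F (uu v t) = ∑ n ∈ Ω k, aa Ω p k n • F (v k n) := by
  unfold ss
  rw [sum_image]
  · rw [sum_sigma]
    apply sum_congr rfl
    intro n _
    have : ∀ j ∈ range (aa Ω p k n), F (uu v (Nat.pair k (Nat.pair n j))) = F (v k n) := by
      intro j _
      unfold uu
      simp
    rw [sum_congr rfl this, sum_const, card_range]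
  · intro x _ y _ h
    rw [Nat.pair_eq_pair, Nat.pair_eq_pair] at h
    obtain ⟨_, h1, h2⟩ := h
    exact Sigma.ext h1 (heq_of_eq h2)

theorem card_ss (k : ℕ) : ((ss Ω p k).card : ℝ) = ∑ n ∈ Ω k, (aa Ω p k n : ℝ) := by
  have h := sum_ss Ω p (fun _ _ => (0 : ℤ)) (fun _ => (1 : ℝ)) k
  simp only [sum_const, nsmul_eq_mul, mul_one] at h
  exact h

open Classical in
theorem ncard_ss (Q : ℤ → Prop) (k : ℕ) :
    ({t : ℕ | t ∈ ss Ω p k ∧ Q (uu v t)}.ncard : ℝ) = ∑ n ∈ (Ω k).filter (fun n => Q (v k n)), (aa Ω p k n : ℝ) := by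
  have e1 : {t : ℕ | t ∈ ss Ω p k ∧ Q (uu v t)} = (((ss Ω p k).filter fun t => Q (uu v t) : Finset ℕ) : Set ℕ) := by
    ext t
    simp
  rw [e1, Set.ncard_coe_finset, card_filter]
  push_cast
  have h := sum_ss Ω p v (fun z => if Q z then (1 : ℝ) else 0) k
  rw [h, sum_filter]
  apply sum_congr rfl
  intro n _
  split_ifs <;> simp

variable {Ω p v}

theorem aa_le (hp : ∀ k, ∀ n ∈ Ω k, 0 ≤ p k n) (k n : ℕ) (hn : n ∈ Ω k) : (aa Ω p k n : ℝ) ≤ MM Ω k * p k n :=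
  Nat.floor_le (mul_nonneg (Nat.cast_nonneg _) (hp k n hn))

theorem le_aa (k n : ℕ) : (MM Ω k : ℝ) * p k n ≤ aa Ω p k n + 1 := (Nat.lt_floor_add_one _).le

theorem MM_pos (k : ℕ) : (0 : ℝ) < MM Ω k := by
  unfold MM
  exact_mod_cast Nat.mul_pos (by omega) (by omega)

theorem card_le_MM (k : ℕ) : ((Ω k).card : ℝ) ≤ MM Ω k / (k + 1) := by
  unfold MM
  rw [le_div_iff₀ (by positivity)]
  push_cast
  nlinarith [show (0 : ℝ) ≤ k from Nat.cast_nonneg k]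

theorem low (hp : ∀ k, ∀ n ∈ Ω k, 0 ≤ p k n) (hs : ∀ k, ∑ n ∈ Ω k, p k n = 1) (Q : ℤ → Prop) (k : ℕ) {A : ℝ} (hA : 0 ≤ A)
    (h : A * (ss Ω p k).card ≤ ({t : ℕ | t ∈ ss Ω p k ∧ Q (uu v t)}.ncard : ℝ)) :
    A * (1 - 1 / (k + 1)) ≤ pr (Ω k) (p k) (fun n => Q (v k n)) := by
  classical
  unfold pr
  rw [ncard_ss] at h
  have h1 : ∑ n ∈ (Ω k).filter (fun n => Q (v k n)), (aa Ω p k n : ℝ) ≤
      MM Ω k * ∑ n ∈ (Ω k).filter (fun n => Q (v k n)), p k n := by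
    rw [mul_sum]
    exact sum_le_sum fun n hn => aa_le hp k n (mem_filter.1 hn).1
  have h2 : (MM Ω k : ℝ) * (1 - 1 / (k + 1)) ≤ (ss Ω p k).card := by
    rw [card_ss Ω p]
    have h3 : (MM Ω k : ℝ) ≤ ∑ n ∈ Ω k, ((aa Ω p k n : ℝ) + 1) := by
      calc (MM Ω k : ℝ) = ∑ n ∈ Ω k, (MM Ω k : ℝ) * p k n := by rw [← mul_sum, hs, mul_one]
        _ ≤ _ := sum_le_sum fun n _ => le_aa k n
    rw [sum_add_distrib, sum_const, nsmul_eq_mul, mul_one] at h3
    have h4 := card_le_MM (Ω := Ω) k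
    have e1 : (MM Ω k : ℝ) * (1 - 1 / (k + 1)) = MM Ω k - MM Ω k / (k + 1) := by ring
    rw [e1]
    linarith
  have h3 : (MM Ω k : ℝ) * (A * (1 - 1 / (k + 1))) ≤ MM Ω k * ∑ n ∈ (Ω k).filter (fun n => Q (v k n)), p k n := by
    calc (MM Ω k : ℝ) * (A * (1 - 1 / (k + 1))) = A * (MM Ω k * (1 - 1 / (k + 1))) := by ring
      _ ≤ A * (ss Ω p k).card := mul_le_mul_of_nonneg_left h2 hA
      _ ≤ _ := h.trans h1
  exact le_of_mul_le_mul_left h3 (MM_pos k)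

theorem upp (hp : ∀ k, ∀ n ∈ Ω k, 0 ≤ p k n) (hs : ∀ k, ∑ n ∈ Ω k, p k n = 1) (Q : ℤ → Prop) (k : ℕ) {B : ℝ} (hB : 0 ≤ B)
    (h : ({t : ℕ | t ∈ ss Ω p k ∧ Q (uu v t)}.ncard : ℝ) ≤ B * (ss Ω p k).card) :
    pr (Ω k) (p k) (fun n => Q (v k n)) ≤ B + 1 / (k + 1) := by
  classical
  unfold pr
  rw [ncard_ss] at h
  have h1 : MM Ω k * ∑ n ∈ (Ω k).filter (fun n => Q (v k n)), p k n ≤
      ∑ n ∈ (Ω k).filter (fun n => Q (v k n)), (aa Ω p k n : ℝ) + (Ω k).card := by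
    rw [mul_sum]
    calc ∑ n ∈ (Ω k).filter (fun n => Q (v k n)), (MM Ω k : ℝ) * p k n ≤
        ∑ n ∈ (Ω k).filter (fun n => Q (v k n)), ((aa Ω p k n : ℝ) + 1) := sum_le_sum fun n _ => le_aa k n
      _ ≤ _ := by
        rw [sum_add_distrib, sum_const, nsmul_eq_mul, mul_one]
        have : (((Ω k).filter (fun n => Q (v k n))).card : ℝ) ≤ (Ω k).card := by exact_mod_cast card_filter_le _ _
        linarith
  have h2 : ((ss Ω p k).card : ℝ) ≤ MM Ω k := by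
    rw [card_ss Ω p]
    calc ∑ n ∈ Ω k, (aa Ω p k n : ℝ) ≤ ∑ n ∈ Ω k, (MM Ω k : ℝ) * p k n := sum_le_sum fun n hn => aa_le hp k n hn
      _ = _ := by rw [← mul_sum, hs, mul_one]
  have h4 := card_le_MM (Ω := Ω) k
  have h3 : (MM Ω k : ℝ) * ∑ n ∈ (Ω k).filter (fun n => Q (v k n)), p k n ≤ MM Ω k * (B + 1 / (k + 1)) := by
    calc _ ≤ B * (ss Ω p k).card + (Ω k).card := by linarith
      _ ≤ B * MM Ω k + MM Ω k / (k + 1) := add_le_add (mul_le_mul_of_nonneg_left h2 hB) h4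
      _ = _ := by ring
  exact le_of_mul_le_mul_left h3 (MM_pos k)

/-- the exponential sums -/
theorem algs (hp : ∀ k, ∀ n ∈ Ω k, 0 ≤ p k n) (hs : ∀ k, ∑ n ∈ Ω k, p k n = 1)
    (hexp : ∀ θ : ℝ, Irrational θ → IsAlgebraic ℤ θ → ∀ ε : ℝ, 0 < ε → ∀ᶠ k : ℕ in atTop,
      ‖∑ n ∈ Ω k, ((p k n : ℝ) : ℂ) * e (θ * v k n)‖ ≤ ε) : AlgSmall (ss Ω p) (uu v) := by
  intro θ hθ ha ε hε
  have hlim : Tendsto (fun k : ℕ => 1 / ((k : ℝ) + 1)) atTop (𝓝 0) := tendsto_one_div_add_atTop_nhds_zero_nat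
  filter_upwards [hexp θ hθ ha (ε / 4) (by positivity), hlim.eventually (eventually_lt_nhds (show 0 < min (1 / 2) (ε / 4) by positivity))]
    with k hk hk2
  have hk3 : 1 / ((k : ℝ) + 1) < 1 / 2 := hk2.trans_le (min_le_left _ _)
  have hk4 : 1 / ((k : ℝ) + 1) < ε / 4 := hk2.trans_le (min_le_right _ _)
  have h := sum_ss Ω p v (fun z => e (θ * z)) k
  rw [h]
  have h1 : ‖∑ n ∈ Ω k, aa Ω p k n • e (θ * v k n) - (MM Ω k : ℂ) * ∑ n ∈ Ω k, ((p k n : ℝ) : ℂ) * e (θ * v k n)‖ ≤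
      (Ω k).card := by
    rw [mul_sum, ← sum_sub_distrib]
    refine (norm_sum_le _ _).trans ?_
    calc ∑ n ∈ Ω k, ‖aa Ω p k n • e (θ * v k n) - (MM Ω k : ℂ) * (((p k n : ℝ) : ℂ) * e (θ * v k n))‖ ≤
        ∑ _n ∈ Ω k, (1 : ℝ) := by
          apply sum_le_sum
          intro n hn
          have e1 : aa Ω p k n • e (θ * v k n) - (MM Ω k : ℂ) * (((p k n : ℝ) : ℂ) * e (θ * v k n)) =
              (((aa Ω p k n : ℝ) - MM Ω k * p k n : ℝ) : ℂ) * e (θ * v k n) := by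
            push_cast
            rw [nsmul_eq_mul]
            ring
          rw [e1, norm_mul, norm_e, mul_one, Complex.norm_real, Real.norm_eq_abs, abs_le]
          have := aa_le hp k n hn
          have := le_aa (Ω := Ω) (p := p) k n
          constructor <;> linarith
      _ = _ := by rw [sum_const, nsmul_eq_mul, mul_one]
  have h2 : (MM Ω k : ℝ) / 2 ≤ (ss Ω p k).card := by
    rw [card_ss Ω p]
    have h3 : (MM Ω k : ℝ) ≤ ∑ n ∈ Ω k, ((aa Ω p k n : ℝ) + 1) := by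
      calc (MM Ω k : ℝ) = ∑ n ∈ Ω k, (MM Ω k : ℝ) * p k n := by rw [← mul_sum, hs, mul_one]
        _ ≤ _ := sum_le_sum fun n _ => le_aa k n
    rw [sum_add_distrib, sum_const, nsmul_eq_mul, mul_one] at h3
    have h4 := card_le_MM (Ω := Ω) k
    have h5 : (MM Ω k : ℝ) / (k + 1) ≤ MM Ω k / 2 := by
      have := mul_le_mul_of_nonneg_left hk3.le (MM_pos (Ω := Ω) k).le
      calc (MM Ω k : ℝ) / (k + 1) = MM Ω k * (1 / (k + 1)) := by ring
        _ ≤ MM Ω k * (1 / 2) := this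
        _ = _ := by ring
    linarith
  have h4 := card_le_MM (Ω := Ω) k
  have h6 : ‖(MM Ω k : ℂ) * ∑ n ∈ Ω k, ((p k n : ℝ) : ℂ) * e (θ * v k n)‖ ≤ MM Ω k * (ε / 4) := by
    rw [norm_mul, Complex.norm_natCast]
    exact mul_le_mul_of_nonneg_left hk (MM_pos k).le
  have h7 : (MM Ω k : ℝ) / (k + 1) ≤ MM Ω k * (ε / 4) := by
    calc (MM Ω k : ℝ) / (k + 1) = MM Ω k * (1 / (k + 1)) := by ring
      _ ≤ _ := mul_le_mul_of_nonneg_left hk4.le (MM_pos k).le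
  have h8 := norm_le_norm_add_norm_sub' (∑ n ∈ Ω k, aa Ω p k n • e (θ * v k n))
    ((MM Ω k : ℂ) * ∑ n ∈ Ω k, ((p k n : ℝ) : ℂ) * e (θ * v k n))
  calc ‖∑ n ∈ Ω k, aa Ω p k n • e (θ * v k n)‖ ≤ MM Ω k * (ε / 4) + MM Ω k * (ε / 4) := by linarith
    _ = ε * (MM Ω k / 2) := by ring
    _ ≤ _ := mul_le_mul_of_nonneg_left h2 hε.le

/-- **the three laws with weights** -/
theorem weighted (hp : ∀ k, ∀ n ∈ Ω k, 0 ≤ p k n) (hs : ∀ k, ∑ n ∈ Ω k, p k n = 1)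
    (hexp : ∀ θ : ℝ, Irrational θ → IsAlgebraic ℤ θ → ∀ ε : ℝ, 0 < ε → ∀ᶠ k : ℕ in atTop,
      ‖∑ n ∈ Ω k, ((p k n : ℝ) : ℂ) * e (θ * v k n)‖ ≤ ε) :
    (∀ᶠ k : ℕ in atTop, 1 / 10000 ^ 22 / 2 ≤ pr (Ω k) (p k) (fun n => Tgt (v k n))) ∧
    (∀ r : ℕ, 10 ≤ r → ∀ δ : ℝ, 0 < δ → ∀ᶠ k : ℕ in atTop,
      pr (Ω k) (p k) (fun n => ∃ W : ℕ, 1 ≤ W ∧ (W : ℤ) = v k n ∧ ¬ GoodN r W) ≤ badN r + δ) ∧
    (∀ r : ℕ, 10 ≤ r → ∀ δ : ℝ, 0 < δ → ∀ᶠ k : ℕ in atTop,
      pr (Ω k) (p k) (fun n => ∃ W : ℕ, 1 ≤ W ∧ (W : ℤ) = v k n ∧ ¬ Ex r W) ≤ badU r + δ) := by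
  have halg := algs hp hs hexp
  have hlim : Tendsto (fun k : ℕ => 1 / ((k : ℝ) + 1)) atTop (𝓝 0) := tendsto_one_div_add_atTop_nhds_zero_nat
  refine ⟨?_, fun r hr δ hδ => ?_, fun r hr δ hδ => ?_⟩
  · filter_upwards [tgt_of_freq (s := ss Ω p) (v := uu v) (fun θ hθ => halg θ hθ.1 hθ.2.isAlgebraic),
      hlim.eventually (eventually_lt_nhds (show (0 : ℝ) < 1 / 2 by norm_num))] with k hk hk2
    refine le_trans ?_ (low hp hs Tgt k (by positivity) hk)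
    have : (1 : ℝ) / 2 ≤ 1 - 1 / (k + 1) := by linarith
    calc (1 : ℝ) / 10000 ^ 22 / 2 ≤ 1 / 10000 ^ 22 * (1 / 2) := by norm_num
      _ ≤ _ := mul_le_mul_of_nonneg_left this (by positivity)
  · filter_upwards [near_seq hr halg (show 0 < δ / 2 by positivity),
      hlim.eventually (eventually_lt_nhds (show 0 < δ / 2 by positivity))] with k hk hk2
    have hB : 0 ≤ badN r + δ / 2 := by
      have : 0 ≤ badN r := by
        unfold badN
        have h3 := Pool.Agent.N141.SG.three_lt hr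
        split_ifs
        · exact le_rfl
        · have h1 : 0 ≤ min (√(r : ℝ) - 3) (2 / 3 + 9 / (4 * √(r : ℝ))) := le_min (by linarith) (by positivity)
          have h2 : 0 ≤ min (√(r : ℝ) - 3) (2 / 3 + 1 / (4 * √(r : ℝ))) := le_min (by linarith) (by positivity)
          linarith
      linarith
    have := upp hp hs (fun z => ∃ W : ℕ, 1 ≤ W ∧ (W : ℤ) = z ∧ ¬ GoodN r W) k hB hk
    linarith
  · filter_upwards [one_seq hr halg (show 0 < δ / 2 by positivity),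
      hlim.eventually (eventually_lt_nhds (show 0 < δ / 2 by positivity))] with k hk hk2
    have hB : 0 ≤ badU r + δ / 2 := by
      have : 0 ≤ badU r := by
        unfold badU
        have h3 := Pool.Agent.N141.SG.three_lt hr
        split_ifs
        · exact le_rfl
        · have : 0 ≤ √(r : ℝ) - 3 := by linarith
          positivity
        · have h1 : 0 ≤ min (√(r : ℝ) - 3) (2 / 3 + 9 / (4 * √(r : ℝ))) := le_min (by linarith) (by positivity)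
          have h2 : 0 ≤ min (√(r : ℝ) - 3) (2 / 3 + 1 / (4 * √(r : ℝ))) := le_min (by linarith) (by positivity)
          linarith
      linarith
    have := upp hp hs (fun z => ∃ W : ℕ, 1 ≤ W ∧ (W : ℤ) = z ∧ ¬ Ex r W) k hB hk
    linarith

/-- a fixed value has a small probability -/
theorem zero_ev (hp : ∀ k, ∀ n ∈ Ω k, 0 ≤ p k n) (hs : ∀ k, ∑ n ∈ Ω k, p k n = 1)
    (hexp : ∀ θ : ℝ, Irrational θ → IsAlgebraic ℤ θ → ∀ ε : ℝ, 0 < ε → ∀ᶠ k : ℕ in atTop,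
      ‖∑ n ∈ Ω k, ((p k n : ℝ) : ℂ) * e (θ * v k n)‖ ≤ ε) (δ : ℝ) (hδ : 0 < δ) :
    ∀ᶠ k : ℕ in atTop, pr (Ω k) (p k) (fun n => v k n = 0) ≤ δ := by
  classical
  obtain ⟨H, hH⟩ := exists_nat_gt (2 / δ)
  have hH0 : (0 : ℝ) < H := lt_trans (by positivity) hH
  have hHN : 0 < H := by exact_mod_cast hH0
  -- the square root of two
  have hirr : ∀ t : ℤ, t ≠ 0 → Irrational ((t : ℝ) * √2) := fun t ht => irrational_sqrt_two.intCast_mul ht
  have halg : ∀ t : ℤ, IsAlgebraic ℤ ((t : ℝ) * √2) := by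
    intro t
    have h1 : IsAlgebraic ℤ (√2 : ℝ) := by
      refine IsAlgebraic.of_pow (n := 2) (by norm_num) ?_
      rw [Real.sq_sqrt (by norm_num)]
      exact isAlgebraic_intCast (R := ℤ) (A := ℝ) 2
    exact (isAlgebraic_intCast (R := ℤ) (A := ℝ) t).mul h1
  have hall : ∀ᶠ k : ℕ in atTop, ∀ x ∈ ((range H) ×ˢ (range H)).filter (fun x => x.1 ≠ x.2),
      ‖∑ n ∈ Ω k, ((p k n : ℝ) : ℂ) * e ((((x.1 : ℤ) - (x.2 : ℤ) : ℤ) : ℝ) * √2 * v k n)‖ ≤ 1 / H := by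
    rw [Finset.eventually_all]
    intro x hx
    rw [mem_filter] at hx
    have hne : (x.1 : ℤ) - (x.2 : ℤ) ≠ 0 := by
      intro h
      exact hx.2 (by omega)
    exact hexp _ (hirr _ hne) (halg _) (1 / H) (by positivity)
  filter_upwards [hall] with k hk
  unfold pr
  -- Fejer's kernel
  have h1 : ∀ n ∈ Ω k, (if v k n = 0 then p k n * (H : ℝ) ^ 2 else 0) ≤
      p k n * ‖∑ h ∈ range H, e ((h : ℝ) * (√2 * v k n))‖ ^ 2 := by
    intro n hn
    split_ifs with h0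
    · rw [h0]
      simp [Pool.Agent.H469R2.NK.e]
    · exact mul_nonneg (hp k n hn) (by positivity)
  have h2 : ∀ n, ((‖∑ h ∈ range H, e ((h : ℝ) * (√2 * v k n))‖ ^ 2 : ℝ) : ℂ) =
      ∑ x ∈ (range H) ×ˢ (range H), e ((((x.1 : ℤ) - (x.2 : ℤ) : ℤ) : ℝ) * √2 * v k n) := by
    intro n
    push_cast
    rw [← Complex.mul_conj', map_sum, sum_mul_sum, ← sum_product']
    apply sum_congr rfl
    intro x _
    rw [Pool.Agent.H469R2.NK.conj_e, ← e_add]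
    congr 1
    push_cast
    ring
  have h3 : ((∑ n ∈ Ω k, p k n * ‖∑ h ∈ range H, e ((h : ℝ) * (√2 * v k n))‖ ^ 2 : ℝ) : ℂ) =
      ∑ x ∈ (range H) ×ˢ (range H), ∑ n ∈ Ω k, ((p k n : ℝ) : ℂ) * e ((((x.1 : ℤ) - (x.2 : ℤ) : ℤ) : ℝ) * √2 * v k n) := by
    rw [sum_comm]
    push_cast
    apply sum_congr rfl
    intro n _
    rw [← mul_sum]
    congr 1
    have := h2 n
    push_cast at this
    exact this
  have h4 : ∑ n ∈ Ω k, p k n * ‖∑ h ∈ range H, e ((h : ℝ) * (√2 * v k n))‖ ^ 2 ≤ 2 * H := by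
    have hnn : 0 ≤ ∑ n ∈ Ω k, p k n * ‖∑ h ∈ range H, e ((h : ℝ) * (√2 * v k n))‖ ^ 2 :=
      sum_nonneg fun n hn => mul_nonneg (hp k n hn) (by positivity)
    rw [← Real.norm_of_nonneg hnn, ← Complex.norm_real, h3]
    refine (norm_sum_le _ _).trans ?_
    rw [← sum_filter_add_sum_filter_not ((range H) ×ˢ (range H)) (fun x => x.1 ≠ x.2)]
    have h5 : ∑ x ∈ ((range H) ×ˢ (range H)).filter (fun x => x.1 ≠ x.2),
        ‖∑ n ∈ Ω k, ((p k n : ℝ) : ℂ) * e ((((x.1 : ℤ) - (x.2 : ℤ) : ℤ) : ℝ) * √2 * v k n)‖ ≤ H := by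
      calc _ ≤ ∑ _x ∈ ((range H) ×ˢ (range H)).filter (fun x => x.1 ≠ x.2), 1 / (H : ℝ) := sum_le_sum fun x hx => hk x hx
        _ = ((((range H) ×ˢ (range H)).filter (fun x => x.1 ≠ x.2)).card : ℝ) * (1 / H) := by rw [sum_const, nsmul_eq_mul]
        _ ≤ ((H : ℝ) * H) * (1 / H) := by
          apply mul_le_mul_of_nonneg_right _ (by positivity)
          have := card_filter_le ((range H) ×ˢ (range H)) (fun x => x.1 ≠ x.2)
          rw [card_product, card_range] at this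
          exact_mod_cast this
        _ = H := by field_simp
    have h6 : ∑ x ∈ ((range H) ×ˢ (range H)).filter (fun x => ¬ x.1 ≠ x.2),
        ‖∑ n ∈ Ω k, ((p k n : ℝ) : ℂ) * e ((((x.1 : ℤ) - (x.2 : ℤ) : ℤ) : ℝ) * √2 * v k n)‖ ≤ H := by
      have e5 : ∀ x ∈ ((range H) ×ˢ (range H)).filter (fun x => ¬ x.1 ≠ x.2),
          ‖∑ n ∈ Ω k, ((p k n : ℝ) : ℂ) * e ((((x.1 : ℤ) - (x.2 : ℤ) : ℤ) : ℝ) * √2 * v k n)‖ ≤ 1 := by
        intro x _
        refine (norm_sum_le _ _).trans ?_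
        rw [← hs k]
        apply sum_le_sum
        intro n hn
        rw [norm_mul, norm_e, mul_one, Complex.norm_real, Real.norm_of_nonneg (hp k n hn)]
      refine (sum_le_sum e5).trans ?_
      rw [sum_const, nsmul_eq_mul, mul_one]
      have e6 : ((range H) ×ˢ (range H)).filter (fun x => ¬ x.1 ≠ x.2) ⊆ (range H).image fun h => (h, h) := by
        intro x hx
        rw [mem_filter, mem_product] at hx
        rw [mem_image]
        refine ⟨x.1, hx.1.1, ?_⟩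
        ext
        · rfl
        · exact not_not.1 hx.2
      have e7 := (card_le_card e6).trans card_image_le
      rw [card_range] at e7
      exact_mod_cast e7
    linarith
  have h7 : (∑ n ∈ (Ω k).filter (fun n => v k n = 0), p k n) * (H : ℝ) ^ 2 ≤ 2 * H := by
    rw [sum_mul, sum_filter]
    exact (sum_le_sum h1).trans h4
  have h8 : (∑ n ∈ (Ω k).filter (fun n => v k n = 0), p k n) * H ≤ 2 := by
    have : ((∑ n ∈ (Ω k).filter (fun n => v k n = 0), p k n) * H) * H ≤ 2 * H := by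
      calc _ = (∑ n ∈ (Ω k).filter (fun n => v k n = 0), p k n) * (H : ℝ) ^ 2 := by ring
        _ ≤ _ := h7
    exact le_of_mul_le_mul_right this hH0
  rw [div_lt_iff₀ hδ] at hH
  have h9 : (∑ n ∈ (Ω k).filter (fun n => v k n = 0), p k n) * H ≤ δ * H := by linarith
  have h10 := le_of_mul_le_mul_right h9 hH0
  refine (le_of_eq ?_).trans h10
  congr!

/-- **the laws for nonnegative integers with weights** -/
theorem nat_laws {m : ℕ → ℕ → ℕ} (hp : ∀ k, ∀ n ∈ Ω k, 0 ≤ p k n) (hs : ∀ k, ∑ n ∈ Ω k, p k n = 1)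
    (hexp : ∀ θ : ℝ, Irrational θ → IsAlgebraic ℤ θ → ∀ ε : ℝ, 0 < ε → ∀ᶠ k : ℕ in atTop,
      ‖∑ n ∈ Ω k, ((p k n : ℝ) : ℂ) * e (θ * ((m k n : ℤ) : ℝ))‖ ≤ ε) :
    (∀ᶠ k : ℕ in atTop, 1 / 10000 ^ 23 ≤ pr (Ω k) (p k) (fun n => 1 ≤ m k n ∧ Tgt ((m k n : ℕ) : ℤ))) ∧
    (∀ r : ℕ, 10 ≤ r → ∀ δ : ℝ, 0 < δ → ∀ᶠ k : ℕ in atTop,
      pr (Ω k) (p k) (fun n => ¬ GoodN r (m k n)) ≤ badN r + δ) ∧
    (∀ r : ℕ, 10 ≤ r → ∀ δ : ℝ, 0 < δ → ∀ᶠ k : ℕ in atTop,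
      pr (Ω k) (p k) (fun n => ¬ Ex r (m k n)) ≤ badU r + δ) := by
  obtain ⟨h1, h2, h3⟩ := weighted (v := fun k n => (m k n : ℤ)) hp hs hexp
  have h0 := zero_ev (v := fun k n => (m k n : ℤ)) hp hs hexp
  refine ⟨?_, fun r hr δ hδ => ?_, fun r hr δ hδ => ?_⟩
  · filter_upwards [h1, h0 (1 / 10000 ^ 23) (by positivity)] with k hk1 hk2
    have h4 : (1 : ℝ) / 10000 ^ 22 / 2 - 1 / 10000 ^ 23 ≥ 1 / 10000 ^ 23 := by norm_num
    have h5 := pr_split (hp k) (A := fun n => Tgt ((m k n : ℕ) : ℤ)) (B := fun n => (m k n : ℤ) = 0)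
      (C := fun n => 1 ≤ m k n ∧ Tgt ((m k n : ℕ) : ℤ)) (fun n _ hn => by
        rcases Nat.eq_zero_or_pos (m k n) with h0 | h0
        · exact Or.inl (by exact_mod_cast h0)
        · exact Or.inr ⟨h0, hn⟩)
    linarith
  · filter_upwards [h2 r hr (δ / 2) (by positivity), h0 (δ / 2) (by positivity)] with k hk1 hk2
    have h5 := pr_split (hp k) (A := fun n => ¬ GoodN r (m k n)) (B := fun n => (m k n : ℤ) = 0)
      (C := fun n => ∃ W : ℕ, 1 ≤ W ∧ (W : ℤ) = (m k n : ℤ) ∧ ¬ GoodN r W)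
      (fun n _ hn => by
        rcases Nat.eq_zero_or_pos (m k n) with h0 | h0
        · exact Or.inl (by exact_mod_cast h0)
        · exact Or.inr ⟨m k n, h0, rfl, hn⟩)
    linarith
  · filter_upwards [h3 r hr (δ / 2) (by positivity), h0 (δ / 2) (by positivity)] with k hk1 hk2
    have h5 := pr_split (hp k) (A := fun n => ¬ Ex r (m k n)) (B := fun n => (m k n : ℤ) = 0)
      (C := fun n => ∃ W : ℕ, 1 ≤ W ∧ (W : ℤ) = (m k n : ℤ) ∧ ¬ Ex r W)
      (fun n _ hn => by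
        rcases Nat.eq_zero_or_pos (m k n) with h0 | h0
        · exact Or.inl (by exact_mod_cast h0)
        · exact Or.inr ⟨m k n, h0, rfl, hn⟩)
    linarith

end weights

lemma e_eq (x : ℝ) : e x = ee x := by
  unfold Pool.Agent.H469R2.NK.e
  rw [ee_eq]

end Pool.Agent.J4.H78.FP
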