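import Pool.Agent.J4.H78.FP.Poly

set_option autoImplicit false

/-! Palindromes in base `b`. -/

namespace Pool.Agent.J4.H78.FP
open Finset Filter Topology
open Pool.Agent.H469R2.NK (e norm_e e_add)
open Pool.Agent.H807R2.Dav (ee ee_eq norm_ee ee_add ee_zero)
open Pool.Agent.TH872.Sq (Dig P P_nonneg P_sum P_le eta_le ex_split nn nn_nonneg nn_le nn_half)
open Pool.Agent.W93.RD (char_le)
open Pool.Agent.N141.SG (Tgt GoodN Ex badN badU)

/-- the digits of `u + b ^ m v` -/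
lemma digit_low (b m u v j : ℕ) (hb : 0 < b) (hj : j < m) : (u + b ^ m * v) / b ^ j % b = u / b ^ j % b := by
  have h1 : b ^ m * v = b ^ j * (b * (b ^ (m - 1 - j) * v)) := by
    have : m = j + 1 + (m - 1 - j) := by omega
    nth_rewrite 1 [this]
    ring
  rw [h1, Nat.add_mul_div_left _ _ (by positivity), Nat.add_mul_mod_self_left]

lemma digit_top (b m u v : ℕ) (hb : 0 < b) (hu : u < b ^ m) (hv : v < b) : (u + b ^ m * v) / b ^ m % b = v := by
  rw [Nat.add_mul_div_left _ _ (by positivity), Nat.div_eq_of_lt hu, zero_add, Nat.mod_eq_of_lt hv]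

/-- linear functions of the digits: the mean is a product -/
theorem ex_lin (b : ℕ) (hb : 0 < b) (w : ℕ → ℕ → ℝ) (g : ℕ → ℝ) (m : ℕ) :
    ∑ n ∈ range (b ^ m), ((P b w 0 m n : ℝ) : ℂ) * ee (∑ j ∈ range m, ((n / b ^ j % b : ℕ) : ℝ) * g j) =
      ∏ j ∈ range m, ∑ a ∈ range b, ((w j a : ℝ) : ℂ) * ee (a * g j) := by
  induction m with
  | zero => simp [P, ee_zero]
  | succ m ih =>
    have h1 := ex_split b hb w 0 m 1 (fun n => ee (∑ j ∈ range (m + 1), ((n / b ^ j % b : ℕ) : ℝ) * g j))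
    rw [h1, prod_range_succ, ← ih, sum_mul]
    apply sum_congr rfl
    intro u hu
    rw [mem_range] at hu
    rw [mul_assoc]
    congr 1
    rw [pow_one, mul_sum]
    apply sum_congr rfl
    intro v hv
    rw [mem_range] at hv
    have h2 : P b w (0 + m) 1 v = w m v := by
      unfold P
      rw [prod_range_one, pow_zero, Nat.div_one, add_zero, zero_add, Nat.mod_eq_of_lt hv]
    rw [h2, sum_range_succ, digit_top b m u v hb hu hv]
    have h3 : ∑ j ∈ range m, (((u + b ^ m * v) / b ^ j % b : ℕ) : ℝ) * g j = ∑ j ∈ range m, ((u / b ^ j % b : ℕ) : ℝ) * g j := by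
      apply sum_congr rfl
      intro j hj
      rw [digit_low b m u v j hb (mem_range.1 hj)]
    rw [h3, ee_add]
    ring

/-- laws of the digits; only the digits number `i ≥ 1` are random -/
structure Dig1 (b : ℕ) (η : ℝ) (w : ℕ → ℕ → ℝ) : Prop where
  nonneg : ∀ i a, 0 ≤ w i a
  le_one : ∀ i a, w i a ≤ 1
  sum : ∀ i, ∑ a ∈ range b, w i a = 1
  le : ∀ i a, 1 ≤ i → w i a ≤ 1 - η

lemma Dig1.dig {b : ℕ} {η : ℝ} {w : ℕ → ℕ → ℝ} (h : Dig1 b η w) : Dig b 0 w :=
  ⟨h.nonneg, h.sum, fun i a => by rw [sub_zero]; exact h.le_one i a⟩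

/-- the palindrome with `K` digits whose digits number `i` and `K - 1 - i` are the `i`-th digit of `n` -/
def pal (b K n : ℕ) : ℕ := ∑ i ∈ range K, (n / b ^ (min i (K - 1 - i)) % b) * b ^ i

/-- the weight of the `j`-th digit of `n` -/
def gw (b K j : ℕ) : ℕ := b ^ j + if 2 * j + 1 < K then b ^ (K - 1 - j) else 0

theorem pal_eq (b K n : ℕ) : pal b K n = ∑ j ∈ range ((K + 1) / 2), (n / b ^ j % b) * gw b K j := by
  unfold pal gw
  have h1 : K = (K + 1) / 2 + K / 2 := by omega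
  have h2 : ∑ i ∈ range K, (n / b ^ (min i (K - 1 - i)) % b) * b ^ i =
      ∑ i ∈ range ((K + 1) / 2), (n / b ^ (min i (K - 1 - i)) % b) * b ^ i +
        ∑ i ∈ range (K / 2), (n / b ^ (min ((K + 1) / 2 + i) (K - 1 - ((K + 1) / 2 + i))) % b) * b ^ ((K + 1) / 2 + i) := by
    rw [← sum_range_add, ← h1]
  rw [h2]
  simp only [mul_add, sum_add_distrib]
  congr 1
  · apply sum_congr rfl
    intro i hi
    rw [mem_range] at hi
    rw [min_eq_left (by omega)]
  · have h3 : ∑ j ∈ range ((K + 1) / 2), (n / b ^ j % b) * (if 2 * j + 1 < K then b ^ (K - 1 - j) else 0) =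
        ∑ j ∈ range (K / 2), (n / b ^ j % b) * b ^ (K - 1 - j) := by
      symm
      rw [← sum_filter_add_sum_filter_not (range ((K + 1) / 2)) (fun j => 2 * j + 1 < K)]
      have e1 : (range ((K + 1) / 2)).filter (fun j => 2 * j + 1 < K) = range (K / 2) := by
        ext j
        rw [mem_filter, mem_range, mem_range]
        omega
      rw [e1]
      have e2 : ∑ x ∈ (range ((K + 1) / 2)).filter (fun j => ¬ 2 * j + 1 < K),
          (n / b ^ x % b) * (if 2 * x + 1 < K then b ^ (K - 1 - x) else 0) = 0 := by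
        apply sum_eq_zero
        intro x hx
        rw [if_neg (mem_filter.1 hx).2, mul_zero]
      rw [e2, add_zero]
      apply sum_congr rfl
      intro j hj
      rw [mem_range] at hj
      rw [if_pos (by omega)]
    rw [h3, ← sum_range_reflect]
    apply sum_congr rfl
    intro i hi
    rw [mem_range] at hi
    have e1 : min ((K + 1) / 2 + (K / 2 - 1 - i)) (K - 1 - ((K + 1) / 2 + (K / 2 - 1 - i))) = i := by omega
    have e2 : (K + 1) / 2 + (K / 2 - 1 - i) = K - 1 - i := by omega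
    rw [e1, e2]

/-- the threshold -/
noncomputable def δ₀ (b : ℕ) : ℝ := 1 / (2 * b) / (b + 1)

/-- one factor -/
noncomputable def fa (b : ℕ) (γ x : ℝ) : ℝ := if δ₀ b ≤ nn x then γ else 1

lemma nn_comb (b : ℕ) (x y : ℝ) : nn (b * x - y) ≤ b * nn x + nn y := by
  have h1 := nn_le (b * x - y) (b * round x - round y)
  refine h1.trans ?_
  have e1 : (b : ℝ) * x - y - ((b * round x - round y : ℤ) : ℝ) = b * (x - round x) - (y - round y) := by
    push_cast
    ring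
  rw [e1]
  refine (abs_sub _ _).trans ?_
  rw [abs_mul, abs_of_nonneg (Nat.cast_nonneg b)]
  exact le_refl _

/-- the weights of consecutive digits cannot all be near to integers -/
theorem pal_far (b : ℕ) (hb : 2 ≤ b) (y : ℝ) (hy : Irrational y) (i : ℕ) : ∃ i' : ℕ, i < i' ∧ ∀ K : ℕ, 2 * i' + 1 < K →
    ∃ j, i ≤ j ∧ j < i' ∧ δ₀ b ≤ nn (y * (b ^ j + b ^ (K - 1 - j))) := by
  have hb2 : (2 : ℝ) ≤ b := by exact_mod_cast hb
  have hirr : Irrational (y * (((b ^ 2 - 1 : ℕ) : ℝ))) := by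
    apply hy.mul_natCast
    have : 2 ^ 2 ≤ b ^ 2 := Nat.pow_le_pow_left hb 2
    omega
  obtain ⟨j, hj, hf⟩ := far b hb _ hirr i
  refine ⟨j + 2, by omega, fun K hK => ?_⟩
  by_contra hcon
  push Not at hcon
  have h1 := hcon j hj (by omega)
  have h2 := hcon (j + 1) (by omega) (by omega)
  have e1 : (b : ℝ) ^ j * (y * (((b ^ 2 - 1 : ℕ) : ℝ))) =
      b * (y * (b ^ (j + 1) + b ^ (K - 1 - (j + 1)))) - y * (b ^ j + b ^ (K - 1 - j)) := by
    have h3 : K - 1 - j = K - 1 - (j + 1) + 1 := by omega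
    have h4 : 1 ≤ b ^ 2 := Nat.one_le_pow _ _ (by omega)
    rw [h3]
    push_cast [Nat.cast_sub h4]
    ring
  rw [e1] at hf
  have h3 := nn_comb b (y * (b ^ (j + 1) + b ^ (K - 1 - (j + 1)))) (y * (b ^ j + b ^ (K - 1 - j)))
  have h4 : (b : ℝ) * δ₀ b + δ₀ b = 1 / (2 * b) := by
    unfold δ₀
    field_simp
  have h5 : (b : ℝ) * nn (y * (b ^ (j + 1) + b ^ (K - 1 - (j + 1)))) < b * δ₀ b := mul_lt_mul_of_pos_left h2 (by linarith)
  linarith

lemma fa_nonneg (b : ℕ) (γ x : ℝ) (hγ : 0 ≤ γ) : 0 ≤ fa b γ x := by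
  unfold fa; split_ifs; exacts [hγ, zero_le_one]

lemma fa_le_one (b : ℕ) (γ x : ℝ) (hγ : γ ≤ 1) : fa b γ x ≤ 1 := by
  unfold fa; split_ifs; exacts [hγ, le_refl _]

theorem pal_prod (b : ℕ) (hb : 2 ≤ b) (γ : ℝ) (hγ : 0 ≤ γ) (hγ1 : γ < 1) (y : ℝ) (hy : Irrational y) (N : ℕ) :
    ∃ i : ℕ, 1 ≤ i ∧ ∀ K : ℕ, 2 * i + 1 < K → ∏ j ∈ Ico 1 i, fa b γ (y * (b ^ j + b ^ (K - 1 - j))) ≤ γ ^ N := by
  induction N with
  | zero => exact ⟨1, le_rfl, fun K _ => by simp⟩
  | succ N ih =>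
    obtain ⟨i, hi, h⟩ := ih
    obtain ⟨i', hii, h'⟩ := pal_far b hb y hy i
    refine ⟨i', by omega, fun K hK => ?_⟩
    obtain ⟨j, hj1, hj2, hj3⟩ := h' K hK
    have hnn : ∀ s : Finset ℕ, 0 ≤ ∏ j ∈ s, fa b γ (y * (b ^ j + b ^ (K - 1 - j))) :=
      fun s => prod_nonneg fun j _ => fa_nonneg b γ _ hγ
    have h1 : ∏ j ∈ Ico i i', fa b γ (y * (b ^ j + b ^ (K - 1 - j))) ≤ γ := by
      have hmem : j ∈ Ico i i' := mem_Ico.2 ⟨hj1, hj2⟩
      rw [← mul_prod_erase _ _ hmem]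
      have e1 : fa b γ (y * (b ^ j + b ^ (K - 1 - j))) = γ := by
        unfold fa
        rw [if_pos hj3]
      rw [e1]
      exact mul_le_of_le_one_right hγ (prod_le_one (fun _ _ => fa_nonneg b γ _ hγ) fun _ _ => fa_le_one b γ _ hγ1.le)
    rw [← prod_Ico_consecutive _ hi (by omega : i ≤ i'), pow_succ]
    exact mul_le_mul (h K (by omega)) h1 (hnn _) (pow_nonneg hγ N)

/-- **exponential sums over palindromes** -/
theorem palE (b : ℕ) (hb : 2 ≤ b) (η : ℝ) (hη : 0 < η) (t : ℝ) (ht : Irrational t) (ε : ℝ) (hε : 0 < ε) :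
    ∃ K₀ : ℕ, ∀ K, K₀ ≤ K → ∀ w, Dig1 b η w →
      ‖∑ n ∈ range (b ^ ((K + 1) / 2)), ((P b w 0 ((K + 1) / 2) n : ℝ) : ℂ) * ee (t * pal b K n)‖ ≤ ε := by
  by_cases hη1 : η ≤ 1
  swap
  · refine ⟨0, fun K _ w hw => ?_⟩
    exfalso
    have h1 := hw.nonneg 1 0
    have h2 := hw.le 1 0 le_rfl
    linarith
  have hb2 : (2 : ℝ) ≤ b := by exact_mod_cast hb
  have hb0 : (0 : ℝ) < b := by linarith
  have hfac : (0 : ℝ) < (b.factorial : ℝ) := by exact_mod_cast b.factorial_pos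
  have hδ0 : 0 < δ₀ b := by unfold δ₀; positivity
  obtain ⟨γ, hγ⟩ : ∃ γ : ℝ, γ = 1 - 4 * (η / b) * (δ₀ b / b.factorial) ^ 2 := ⟨_, rfl⟩
  have hγ1 : γ < 1 := by
    rw [hγ]
    have : 0 < 4 * (η / b) * (δ₀ b / b.factorial) ^ 2 := by positivity
    linarith
  have hγ0 : 0 ≤ γ := by
    rw [hγ]
    have h1 : η / b ≤ 1 / 2 := by
      rw [div_le_div_iff₀ hb0 (by norm_num)]
      linarith
    have h2 : δ₀ b / b.factorial ≤ 1 / 4 := by
      have h3 : δ₀ b ≤ 1 / 4 := by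
        unfold δ₀
        rw [div_div]
        apply one_div_le_one_div_of_le (by norm_num)
        nlinarith
      refine le_trans (div_le_self hδ0.le ?_) h3
      exact_mod_cast b.factorial_pos
    have h4 : (δ₀ b / b.factorial) ^ 2 ≤ (1 / 4) ^ 2 := pow_le_pow_left₀ (by positivity) h2 2
    have h5 : (η / b) * (δ₀ b / b.factorial) ^ 2 ≤ 1 / 2 * (1 / 4) ^ 2 := mul_le_mul h1 h4 (by positivity) (by norm_num)
    linarith
  have hirr : Irrational ((b.factorial : ℝ) * t) := ht.natCast_mul b.factorial_ne_zero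
  obtain ⟨N, hN⟩ := exists_pow_lt_of_lt_one hε hγ1
  obtain ⟨i, hi, h⟩ := pal_prod b hb γ hγ0 hγ1 _ hirr N
  refine ⟨2 * i + 2, fun K hK w hw => ?_⟩
  have e1 : ∀ n : ℕ, t * (pal b K n : ℝ) = ∑ j ∈ range ((K + 1) / 2), ((n / b ^ j % b : ℕ) : ℝ) * (t * gw b K j) := by
    intro n
    rw [pal_eq]
    push_cast
    rw [mul_sum]
    apply sum_congr rfl
    intro j _
    ring
  simp only [e1]
  rw [ex_lin b (by omega), norm_prod]
  have hfac1 : ∀ j ∈ range ((K + 1) / 2), ‖∑ a ∈ range b, ((w j a : ℝ) : ℂ) * ee (a * (t * gw b K j))‖ ≤ 1 := by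
    intro j _
    refine (norm_sum_le _ _).trans ?_
    rw [← hw.sum j]
    apply sum_le_sum
    intro a _
    rw [norm_mul, norm_ee, mul_one, Complex.norm_real, Real.norm_of_nonneg (hw.nonneg j a)]
  have hsub : Ico 1 i ⊆ range ((K + 1) / 2) := by
    intro j hj
    rw [mem_Ico] at hj
    rw [mem_range]
    omega
  have h1 : ∏ j ∈ range ((K + 1) / 2), ‖∑ a ∈ range b, ((w j a : ℝ) : ℂ) * ee (a * (t * gw b K j))‖ ≤
      ∏ j ∈ Ico 1 i, ‖∑ a ∈ range b, ((w j a : ℝ) : ℂ) * ee (a * (t * gw b K j))‖ := by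
    rw [← prod_sdiff hsub]
    exact mul_le_of_le_one_left (prod_nonneg fun _ _ => norm_nonneg _)
      (prod_le_one (fun _ _ => norm_nonneg _) fun j hj => hfac1 j (mem_sdiff.1 hj).1)
  refine h1.trans (le_trans (prod_le_prod (fun _ _ => norm_nonneg _) ?_) ((h K (by omega)).trans hN.le))
  intro j hj
  rw [mem_Ico] at hj
  have e2 : ((gw b K j : ℕ) : ℝ) = b ^ j + b ^ (K - 1 - j) := by
    unfold gw
    rw [if_pos (by omega)]
    push_cast
    ring
  rw [e2]
  unfold fa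
  split_ifs with hc
  · rw [hγ]
    apply char_le b (w j) η hη (hw.nonneg j) (fun a => hw.le j a hj.1) (hw.sum j) _ (δ₀ b) hδ0.le
    intro n
    rw [mul_assoc] at hc
    exact hc.trans (nn_le _ n)
  · have := hfac1 j (hsub (mem_Ico.2 hj))
    rw [e2] at this
    exact this

end Pool.Agent.J4.H78.FP
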