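import Pool.Agent.J4.H78.FP.Pal

set_option autoImplicit false

/-! Palindromes in base `b`: the list of digits, the laws for random palindromes and for all palindromes. -/

namespace Pool.Agent.J4.H78.FP
open Finset Filter Topology
open Pool.Agent.H469R2.NK (e norm_e e_add)
open Pool.Agent.H807R2.Dav (ee ee_eq norm_ee ee_add ee_zero)
open Pool.Agent.TH872.Sq (Dig P P_nonneg P_sum P_le)
open Pool.Agent.N141.SG (Tgt GoodN Ex badN badU)

/-- `p` has exactly `K` digits in base `b`, and they form a palindrome -/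
def IsPal (b K p : ℕ) : Prop := (Nat.digits b p).length = K ∧ (Nat.digits b p).reverse = Nat.digits b p

lemma ofDigits_ofFn (b K : ℕ) (f : Fin K → ℕ) : Nat.ofDigits b (List.ofFn f) = ∑ i : Fin K, f i * b ^ (i : ℕ) := by
  induction K with
  | zero => simp
  | succ K ih =>
    rw [List.ofFn_succ, Nat.ofDigits_cons, ih, Fin.sum_univ_succ, mul_sum]
    congr 1
    · simp
    · apply sum_congr rfl
      intro i _
      simp only [Fin.val_succ, pow_succ]
      ring

/-- the list of the digits -/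
theorem digits_pal (b : ℕ) (hb : 2 ≤ b) (K n : ℕ) (hn : n % b ≠ 0) :
    Nat.digits b (pal b K n) = List.ofFn fun i : Fin K => n / b ^ (min (i : ℕ) (K - 1 - i)) % b := by
  have h1 : pal b K n = Nat.ofDigits b (List.ofFn fun i : Fin K => n / b ^ (min (i : ℕ) (K - 1 - i)) % b) := by
    rw [ofDigits_ofFn]
    unfold pal
    rw [Finset.sum_range]
  rw [h1]
  apply Nat.digits_ofDigits b (by omega)
  · intro l hl
    rw [List.mem_ofFn] at hl
    obtain ⟨i, hi⟩ := hl
    rw [← hi]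
    exact Nat.mod_lt _ (by omega)
  · intro hne
    rw [List.getLast_eq_getElem]
    simp only [List.getElem_ofFn, List.length_ofFn]
    have e1 : min (K - 1) (K - 1 - (K - 1)) = 0 := by omega
    rw [e1, pow_zero, Nat.div_one]
    exact hn

theorem isPal_pal (b : ℕ) (hb : 2 ≤ b) (K n : ℕ) (hn : n % b ≠ 0) : IsPal b K (pal b K n) := by
  unfold IsPal
  rw [digits_pal b hb K n hn]
  refine ⟨List.length_ofFn, ?_⟩
  apply List.ext_getElem
  · simp
  · intro i h1 h2
    rw [List.getElem_reverse]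
    simp only [List.getElem_ofFn, List.length_ofFn]
    simp only [List.length_ofFn] at h2
    have e1 : min (K - 1 - i) (K - 1 - (K - 1 - i)) = min i (K - 1 - i) := by omega
    rw [e1]

lemma digit_mod (b k m i : ℕ) (hb : 0 < b) (hi : i < k) : m % b ^ k / b ^ i % b = m / b ^ i % b := by
  conv_rhs => rw [← Nat.mod_add_div m (b ^ k)]
  rw [digit_low b k _ _ i hb hi]

lemma sum_digits (b : ℕ) (hb : 2 ≤ b) (m : ℕ) (K : ℕ) : ∑ i ∈ range K, (m / b ^ i % b) * b ^ i = m % b ^ K := by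
  induction K with
  | zero => simp [Nat.mod_one]
  | succ K ih =>
    rw [sum_range_succ, ih, pow_succ, Nat.mod_mul]
    ring

/-- all palindromes are obtained -/
theorem pal_surj (b : ℕ) (hb : 2 ≤ b) (K p : ℕ) (hK : 1 ≤ K) (hp : IsPal b K p) :
    p % b ^ ((K + 1) / 2) % b ≠ 0 ∧ pal b K (p % b ^ ((K + 1) / 2)) = p := by
  obtain ⟨h1, h2⟩ := hp
  have hd : ∀ i, (Nat.digits b p).getD i 0 = p / b ^ i % b := fun i => Nat.getD_digits p i hb
  have hsym : ∀ i, i < K → p / b ^ (K - 1 - i) % b = p / b ^ i % b := by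
    intro i hi
    rw [← hd, ← hd]
    conv_lhs => rw [← h2]
    rw [List.getD_eq_getElem _ _ (by rw [List.length_reverse, h1]; omega), List.getD_eq_getElem _ _ (by rw [h1]; exact hi),
      List.getElem_reverse]
    congr 1
    omega
  have hlt : p < b ^ K := by
    rw [← h1]
    exact Nat.lt_base_pow_length_digits (by omega)
  have hlow : ∀ i, i < (K + 1) / 2 → p % b ^ ((K + 1) / 2) / b ^ i % b = p / b ^ i % b :=
    fun i hi => digit_mod b _ p i (by omega) hi
  constructor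
  · have h3 := hlow 0 (by omega)
    rw [pow_zero, Nat.div_one, Nat.div_one] at h3
    rw [h3]
    have hne : Nat.digits b p ≠ [] := by
      intro h
      rw [h] at h1
      simp at h1
      omega
    have hp0 : p ≠ 0 := by
      intro h
      rw [h] at hne
      simp at hne
    have h4 := Nat.getLast_digit_ne_zero b hp0
    have h5 : (Nat.digits b p).getLast hne = p % b := by
      rw [List.getLast_eq_getElem]
      have h6 := hd (K - 1)
      rw [List.getD_eq_getElem _ _ (by rw [h1]; omega)] at h6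
      have h7 := hsym 0 (by omega)
      rw [Nat.sub_zero, pow_zero, Nat.div_one] at h7
      rw [← h7, ← h6]
      congr 1
      omega
    rw [← h5]
    exact h4
  · refine Eq.trans ?_ ((sum_digits b hb p K).trans (Nat.mod_eq_of_lt hlt))
    unfold pal
    apply sum_congr rfl
    intro i hi
    rw [mem_range] at hi
    congr 1
    rw [hlow _ (by omega)]
    rcases Nat.lt_or_ge (K - 1 - i) i with h | h
    · rw [min_eq_right h.le, hsym i hi]
    · rw [min_eq_left h]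

/-- the lower digits of the palindrome -/
theorem pal_mod (b : ℕ) (hb : 2 ≤ b) (K n : ℕ) (hn : n < b ^ ((K + 1) / 2)) : pal b K n % b ^ ((K + 1) / 2) = n := by
  have h1 : pal b K n = ∑ i ∈ range ((K + 1) / 2), (n / b ^ i % b) * b ^ i +
      ∑ i ∈ range (K / 2), (n / b ^ (min ((K + 1) / 2 + i) (K - 1 - ((K + 1) / 2 + i))) % b) * b ^ ((K + 1) / 2 + i) := by
    unfold pal
    have h1 : K = (K + 1) / 2 + K / 2 := by omega
    have h2 : ∑ i ∈ range K, (n / b ^ (min i (K - 1 - i)) % b) * b ^ i =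
        ∑ i ∈ range ((K + 1) / 2), (n / b ^ (min i (K - 1 - i)) % b) * b ^ i +
          ∑ i ∈ range (K / 2), (n / b ^ (min ((K + 1) / 2 + i) (K - 1 - ((K + 1) / 2 + i))) % b) * b ^ ((K + 1) / 2 + i) := by
      rw [← sum_range_add, ← h1]
    rw [h2]
    congr 1
    apply sum_congr rfl
    intro i hi
    rw [mem_range] at hi
    rw [min_eq_left (by omega)]
  rw [h1, sum_digits b hb, Nat.mod_eq_of_lt hn]
  have h2 : ∑ i ∈ range (K / 2), (n / b ^ (min ((K + 1) / 2 + i) (K - 1 - ((K + 1) / 2 + i))) % b) * b ^ ((K + 1) / 2 + i) =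
      b ^ ((K + 1) / 2) * ∑ i ∈ range (K / 2), (n / b ^ (min ((K + 1) / 2 + i) (K - 1 - ((K + 1) / 2 + i))) % b) * b ^ i := by
    rw [mul_sum]
    apply sum_congr rfl
    intro i _
    rw [pow_add]
    ring
  rw [h2, Nat.add_mul_mod_self_left, Nat.mod_eq_of_lt hn]

/-- the uniform law on the palindromes -/
noncomputable def wU (b : ℕ) (i a : ℕ) : ℝ := if i = 0 then (if 1 ≤ a ∧ a < b then 1 / ((b : ℝ) - 1) else 0) else 1 / b

theorem dig1_wU (b : ℕ) (hb : 2 ≤ b) : Dig1 b (1 / 2) (wU b) := by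
  have hb2 : (2 : ℝ) ≤ b := by exact_mod_cast hb
  have h1 : 0 < (b : ℝ) - 1 := by linarith
  refine ⟨fun i a => ?_, fun i a => ?_, fun i => ?_, fun i a hi => ?_⟩
  · unfold wU
    split_ifs
    · positivity
    · exact le_rfl
    · positivity
  · unfold wU
    split_ifs
    · rw [div_le_one h1]
      linarith
    · exact zero_le_one
    · rw [div_le_one (by linarith)]
      linarith
  · unfold wU
    split_ifs
    · rw [← sum_filter]
      have e1 : (range b).filter (fun a => 1 ≤ a ∧ a < b) = Ico 1 b := by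
        ext a
        rw [mem_filter, mem_range, mem_Ico]
        omega
      rw [e1, sum_const, Nat.card_Ico, nsmul_eq_mul, Nat.cast_sub (by omega)]
      push_cast
      field_simp
    · rw [sum_const, card_range, nsmul_eq_mul]
      field_simp
  · unfold wU
    rw [if_neg (by omega)]
    rw [div_le_iff₀ (by linarith)]
    linarith

/-- the probability of `n` -/
theorem P_wU (b : ℕ) (hb : 2 ≤ b) (k n : ℕ) (hk : 1 ≤ k) : P b (wU b) 0 k n =
    (if n % b ≠ 0 then 1 else 0) * (1 / ((b : ℝ) - 1) * (1 / b) ^ (k - 1)) := by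
  obtain ⟨l, rfl⟩ : ∃ l, k = l + 1 := ⟨k - 1, by omega⟩
  unfold P
  rw [prod_range_succ']
  have e1 : ∏ i ∈ range l, wU b (0 + (i + 1)) (n / b ^ (i + 1) % b) = (1 / b) ^ l := by
    rw [prod_congr rfl (fun i _ => show wU b (0 + (i + 1)) (n / b ^ (i + 1) % b) = 1 / b by
      unfold wU
      rw [if_neg (by omega)]), prod_const, card_range]
  rw [e1]
  have hmod : n % b < b := Nat.mod_lt _ (by omega)
  have e2 : wU b (0 + 0) (n / b ^ 0 % b) = (if n % b ≠ 0 then 1 else 0) * (1 / ((b : ℝ) - 1)) := by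
    unfold wU
    rw [if_pos rfl, pow_zero, Nat.div_one]
    by_cases h : n % b = 0
    · rw [h]
      simp
    · rw [if_pos ⟨by omega, hmod⟩, if_pos h, one_mul]
  rw [e2, Nat.add_sub_cancel]
  ring

/-- counting palindromes -/
theorem count_pal (b : ℕ) (hb : 2 ≤ b) (K : ℕ) (hK : 1 ≤ K) (Q : ℕ → Prop) :
    ({p : ℕ | IsPal b K p ∧ Q p}.ncard : ℝ) =
      pr (range (b ^ ((K + 1) / 2))) (P b (wU b) 0 ((K + 1) / 2)) (fun n => Q (pal b K n)) *
        (((b : ℝ) - 1) * b ^ ((K + 1) / 2 - 1)) := by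
  classical
  obtain ⟨k, hk⟩ : ∃ k, k = (K + 1) / 2 := ⟨_, rfl⟩
  have hk1 : 1 ≤ k := by omega
  have hb2 : (2 : ℝ) ≤ b := by exact_mod_cast hb
  have h1 : 0 < (b : ℝ) - 1 := by linarith
  have e1 : {p : ℕ | IsPal b K p ∧ Q p} = ((((range (b ^ k)).filter (fun n => n % b ≠ 0 ∧ Q (pal b K n))).image (pal b K) : Finset ℕ) : Set ℕ) := by
    ext p
    rw [mem_coe, mem_image]
    constructor
    · rintro ⟨h2, h3⟩
      obtain ⟨h4, h5⟩ := pal_surj b hb K p hK h2
      rw [← hk] at h4 h5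
      refine ⟨p % b ^ k, ?_, h5⟩
      rw [mem_filter, mem_range, h5]
      exact ⟨Nat.mod_lt _ (by positivity), h4, h3⟩
    · rintro ⟨n, hn, rfl⟩
      rw [mem_filter] at hn
      exact ⟨isPal_pal b hb K n hn.2.1, hn.2.2⟩
  rw [e1, Set.ncard_coe_finset, card_image_of_injOn]
  · rw [← hk]
    unfold pr
    rw [card_filter]
    push_cast
    rw [sum_filter, sum_mul]
    apply sum_congr rfl
    intro n _
    rw [P_wU b hb k n hk1]
    have h3 : (1 / ((b : ℝ) - 1) * (1 / b) ^ (k - 1)) * (((b : ℝ) - 1) * b ^ (k - 1)) = 1 := by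
      have h0 : (b : ℝ) - 1 ≠ 0 := h1.ne'
      have h2 : (b : ℝ) ≠ 0 := by linarith
      rw [one_div_pow]
      field_simp
    by_cases hq : Q (pal b K n)
    · by_cases hm : n % b = 0
      · simp [hm]
      · simp only [hm, hq, ne_eq, not_false_eq_true, and_self, if_true, one_mul]
        exact h3.symm
    · simp [hq]
  · intro x hx y hy h
    have hx1 := mem_range.1 (mem_filter.1 (mem_coe.1 hx)).1
    have hy1 := mem_range.1 (mem_filter.1 (mem_coe.1 hy)).1
    rw [hk] at hx1 hy1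
    rw [← pal_mod b hb K x hx1, ← pal_mod b hb K y hy1, h]

/-- **random palindromes** -/
theorem pal_laws (b : ℕ) (hb : 2 ≤ b) (η : ℝ) (hη : 0 < η) (c : ℕ) (hc : 1 ≤ c) :
    (∃ K₀ : ℕ, ∀ K, K₀ ≤ K → ∀ x : (ℕ → ℕ → ℝ) × ℕ, Dig1 b η x.1 →
      1 / 10000 ^ 23 ≤ pr (range (b ^ ((K + 1) / 2))) (P b x.1 0 ((K + 1) / 2))
        (fun n => 1 ≤ c * pal b K n + x.2 ∧ Tgt ((c * pal b K n + x.2 : ℕ) : ℤ))) ∧
    (∀ r : ℕ, 10 ≤ r → ∀ δ : ℝ, 0 < δ → ∃ K₀ : ℕ, ∀ K, K₀ ≤ K → ∀ x : (ℕ → ℕ → ℝ) × ℕ, Dig1 b η x.1 →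
      pr (range (b ^ ((K + 1) / 2))) (P b x.1 0 ((K + 1) / 2)) (fun n => ¬ GoodN r (c * pal b K n + x.2)) ≤ badN r + δ) ∧
    (∀ r : ℕ, 10 ≤ r → ∀ δ : ℝ, 0 < δ → ∃ K₀ : ℕ, ∀ K, K₀ ≤ K → ∀ x : (ℕ → ℕ → ℝ) × ℕ, Dig1 b η x.1 →
      pr (range (b ^ ((K + 1) / 2))) (P b x.1 0 ((K + 1) / 2)) (fun n => ¬ Ex r (c * pal b K n + x.2)) ≤ badU r + δ) := by
  have hc0 : c ≠ 0 := by omega
  have main := fun (κ : ℕ → ℕ) (x : ℕ → (ℕ → ℕ → ℝ) × ℕ) (hκ : ∀ j, j ≤ κ j) (hx : ∀ j, Dig1 b η (x j).1) =>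
    nat_laws (Ω := fun j => range (b ^ ((κ j + 1) / 2))) (p := fun j => P b (x j).1 0 ((κ j + 1) / 2))
      (m := fun j n => c * pal b (κ j) n + (x j).2) (fun j n _ => P_nonneg (hx j).dig 0 _ n)
      (fun j => P_sum (by omega) (hx j).dig 0 _) (by
      intro θ hθ _ ε hε
      obtain ⟨K₀, hK₀⟩ := palE b hb η hη (θ * c) (hθ.mul_natCast hc0) ε hε
      filter_upwards [eventually_ge_atTop K₀] with j hj
      have h1 := hK₀ (κ j) (hj.trans (hκ j)) (x j).1 (hx j)
      have e1 : ∑ n ∈ range (b ^ ((κ j + 1) / 2)), ((P b (x j).1 0 ((κ j + 1) / 2) n : ℝ) : ℂ) *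
          e (θ * (((c * pal b (κ j) n + (x j).2 : ℕ) : ℤ) : ℝ)) =
          e (θ * (x j).2) * ∑ n ∈ range (b ^ ((κ j + 1) / 2)), ((P b (x j).1 0 ((κ j + 1) / 2) n : ℝ) : ℂ) *
            ee (θ * c * pal b (κ j) n) := by
        rw [mul_sum]
        apply sum_congr rfl
        intro n _
        have e2 : θ * (((c * pal b (κ j) n + (x j).2 : ℕ) : ℤ) : ℝ) = θ * (x j).2 + θ * c * pal b (κ j) n := by
          push_cast
          ring
        rw [e2, e_add, e_eq (θ * c * pal b (κ j) n)]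
        ring
      rw [e1, norm_mul, norm_e, one_mul]
      exact h1)
  refine ⟨?_, fun r hr δ hδ => ?_, fun r hr δ hδ => ?_⟩
  · exact unif2 (fun _ (x : (ℕ → ℕ → ℝ) × ℕ) => Dig1 b η x.1) (fun K x => 1 / 10000 ^ 23 ≤
      pr (range (b ^ ((K + 1) / 2))) (P b x.1 0 ((K + 1) / 2))
        (fun n => 1 ≤ c * pal b K n + x.2 ∧ Tgt ((c * pal b K n + x.2 : ℕ) : ℤ)))
      (fun κ x hκ hx => (main κ x hκ hx).1.exists)
  · exact unif2 (fun _ (x : (ℕ → ℕ → ℝ) × ℕ) => Dig1 b η x.1) (fun K x =>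
      pr (range (b ^ ((K + 1) / 2))) (P b x.1 0 ((K + 1) / 2)) (fun n => ¬ GoodN r (c * pal b K n + x.2)) ≤ badN r + δ)
      (fun κ x hκ hx => ((main κ x hκ hx).2.1 r hr δ hδ).exists)
  · exact unif2 (fun _ (x : (ℕ → ℕ → ℝ) × ℕ) => Dig1 b η x.1) (fun K x =>
      pr (range (b ^ ((K + 1) / 2))) (P b x.1 0 ((K + 1) / 2)) (fun n => ¬ Ex r (c * pal b K n + x.2)) ≤ badU r + δ)
      (fun κ x hκ hx => ((main κ x hκ hx).2.2 r hr δ hδ).exists)

end Pool.Agent.J4.H78.FP
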