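import Pool.Agent.J4.H78.FP.Lin
import Pool.Agent.J4.H93.PD.PD2

set_option autoImplicit false

/-! Values of polynomials at integers with independent random digits: exponential sums at irrational frequencies
(Weyl's inequality of `Pool.Agent.J4.H93.PD`). -/

namespace Pool.Agent.J4.H78.FP
open Finset Filter Topology
open Pool.Agent.H469R2.NK (e norm_e e_add)
open Pool.Agent.H807R2.Dav (ee ee_eq norm_ee ee_add)
open Pool.Agent.TH872.Sq (Dig P P_nonneg P_sum P_le eta_le)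
open Pool.Agent.J4.H93.PD (PF weyl_deg)
open Pool.Agent.N141.SG (Tgt GoodN Ex badN badU)

/-- irrational numbers are far from the fractions with small denominators -/
theorem gap (θ : ℝ) (hθ : Irrational θ) (N : ℕ) : ∃ δ : ℝ, 0 < δ ∧ ∀ Q : ℕ, 1 ≤ Q → Q ≤ N → ∀ a : ℤ, δ ≤ |θ - a / Q| := by
  induction N with
  | zero => exact ⟨1, one_pos, fun Q h1 h2 => by omega⟩
  | succ N ih =>
    obtain ⟨δ, hδ, h⟩ := ih
    have hN : (0 : ℝ) < ((N + 1 : ℕ) : ℝ) := by exact_mod_cast Nat.succ_pos N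
    have hpos : 0 < |((N + 1 : ℕ) : ℝ) * θ - round (((N + 1 : ℕ) : ℝ) * θ)| := by
      rw [abs_pos, sub_ne_zero]
      exact (hθ.natCast_mul (Nat.succ_ne_zero N)).ne_int _
    refine ⟨min δ (|((N + 1 : ℕ) : ℝ) * θ - round (((N + 1 : ℕ) : ℝ) * θ)| / ((N + 1 : ℕ) : ℝ)), lt_min hδ (div_pos hpos hN),
      fun Q h1 h2 a => ?_⟩
    rcases Nat.lt_or_ge Q (N + 1) with h3 | h3
    · exact (min_le_left _ _).trans (h Q h1 (by omega) a)
    · have h4 : Q = N + 1 := by omega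
      subst h4
      refine (min_le_right _ _).trans ?_
      rw [div_le_iff₀ hN]
      have e1 : |θ - a / ((N + 1 : ℕ) : ℝ)| * ((N + 1 : ℕ) : ℝ) = |((N + 1 : ℕ) : ℝ) * θ - a| := by
        rw [← abs_of_pos hN, ← abs_mul, abs_of_pos hN]
        congr 1
        field_simp
      rw [e1]
      exact round_le _ a

/-- **exponential sums of polynomials with an irrational leading coefficient** -/
theorem polyE (b : ℕ) (hb : 2 ≤ b) (η : ℝ) (hη : 0 < η) (d : ℕ) (hd : 1 ≤ d) (θ : ℝ) (hθ : Irrational θ) (ε : ℝ) (hε : 0 < ε) :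
    ∃ k₀ : ℕ, ∀ k, k₀ ≤ k → ∀ w, Dig b η w → ∀ F : ℝ → ℝ, PF d θ F →
      ‖∑ n ∈ range (b ^ k), ((P b w 0 k n : ℝ) : ℂ) * ee (F n)‖ ≤ ε := by
  by_cases hη1 : η ≤ 1
  swap
  · exact ⟨0, fun k _ w hw => absurd (eta_le hw) hη1⟩
  rcases Nat.lt_or_ge d 2 with hd2 | hd2
  · obtain rfl : d = 1 := by omega
    obtain ⟨k₀, hk₀⟩ := lin b hb η hη θ hθ ε hε
    refine ⟨k₀, fun k hk w hw F ⟨a, ha, hF⟩ => ?_⟩
    have e1 : ∑ n ∈ range (b ^ k), ((P b w 0 k n : ℝ) : ℂ) * ee (F n) =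
        ee (a 0) * ∑ n ∈ range (b ^ k), ((P b w 0 k n : ℝ) : ℂ) * ee (n * θ) := by
      rw [mul_sum]
      apply sum_congr rfl
      intro n _
      have e2 : F n = a 0 + n * θ := by
        rw [hF]
        simp [sum_range_succ, ha]
        ring
      rw [e2, ee_add]
      ring
    rw [e1, norm_mul, norm_ee, one_mul]
    exact hk₀ k hk w hw
  · obtain ⟨l, rfl⟩ : ∃ l, d = l + 2 := ⟨d - 2, by omega⟩
    obtain ⟨s, f, c₁, c₂, hs, hf, hW⟩ := weyl_deg b hb η hη hη1 l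
    have hb2 : (2 : ℝ) ≤ b := by exact_mod_cast hb
    have hb1 : (1 : ℝ) < b := by linarith
    obtain ⟨M, hM⟩ : ∃ M, M = 2 ^ (l + 1) * s := ⟨_, rfl⟩
    have hM0 : M ≠ 0 := by
      rw [hM]
      positivity
    -- the choice of `L`
    have hlim : Tendsto (fun L : ℕ => ((l : ℝ) + 1) * (1 - η / 2) ^ L) atTop (𝓝 (((l : ℝ) + 1) * 0)) :=
      (tendsto_pow_atTop_nhds_zero_of_lt_one (by linarith) (by linarith)).const_mul _
    rw [mul_zero] at hlim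
    obtain ⟨L, hL⟩ := ((hlim.eventually (eventually_lt_nhds (show 0 < ε ^ M by positivity))).and (eventually_ge_atTop 2)).exists
    obtain ⟨hL1, hL2⟩ := hL
    obtain ⟨δ, hδ, hgap⟩ := gap θ hθ (f * b ^ (c₁ * L))
    have hlim2 : Tendsto (fun k : ℕ => δ * (b : ℝ) ^ k) atTop atTop :=
      (tendsto_pow_atTop_atTop_of_one_lt hb1).const_mul_atTop hδ
    obtain ⟨k₁, hk₁⟩ := eventually_atTop.1 (hlim2.eventually (eventually_gt_atTop ((b : ℝ) ^ (c₂ * L))))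
    refine ⟨k₁ + 4 * (l + 2) * L, fun k hk w hw F hF => ?_⟩
    rcases hW k L hL2 (by omega) w hw 0 θ F hF with h | ⟨Q, a, hQ1, hQ2, h3⟩
    · rw [← hM] at h
      have h2 := h.trans hL1.le
      exact le_of_pow_le_pow_left₀ hM0 hε.le h2
    · exfalso
      have h4 := hgap Q hQ1 hQ2 a
      have h5 := hk₁ k (by omega)
      have h6 : δ * (b : ℝ) ^ k ≤ |θ - a / Q| * (b : ℝ) ^ ((l + 2) * k) := by
        apply mul_le_mul h4 _ (by positivity) (abs_nonneg _)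
        apply pow_le_pow_right₀ hb1.le
        nlinarith
      linarith

/-- uniformity with a condition -/
theorem unif2 {X : Type} (C G : ℕ → X → Prop)
    (h : ∀ (κ : ℕ → ℕ) (x : ℕ → X), (∀ j, j ≤ κ j) → (∀ j, C (κ j) (x j)) → ∃ j, G (κ j) (x j)) :
    ∃ k₀ : ℕ, ∀ k, k₀ ≤ k → ∀ x, C k x → G k x := by
  by_contra hcon
  push Not at hcon
  choose κ hκ x hC hG using hcon
  obtain ⟨j, hj⟩ := h κ x hκ hC
  exact hG j hj

/-- a polynomial is a polynomial function -/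
theorem pf_of (F : Polynomial ℝ) (θ : ℝ) : PF F.natDegree (θ * F.leadingCoeff) (fun y => θ * F.eval y) := by
  refine ⟨fun j => θ * F.coeff j, rfl, fun y => ?_⟩
  simp only
  rw [Polynomial.eval_eq_sum_range, mul_sum]
  apply sum_congr rfl
  intro j _
  ring

/-- admissible data: laws of the digits, a polynomial and its values -/
def Adm (b : ℕ) (η : ℝ) (d : ℕ) (α : ℚ) (k : ℕ) (x : (ℕ → ℕ → ℝ) × Polynomial ℝ × (ℕ → ℕ)) : Prop :=
  Dig b η x.1 ∧ x.2.1.natDegree = d ∧ x.2.1.leadingCoeff = α ∧ ∀ n < b ^ k, (x.2.2 n : ℝ) = x.2.1.eval (n : ℝ)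

/-- the exponential sums for admissible data -/
theorem adm_exp (b : ℕ) (hb : 2 ≤ b) (η : ℝ) (hη : 0 < η) (d : ℕ) (hd : 1 ≤ d) (α : ℚ) (hα : α ≠ 0) (κ : ℕ → ℕ)
    (x : ℕ → (ℕ → ℕ → ℝ) × Polynomial ℝ × (ℕ → ℕ)) (hκ : ∀ j, j ≤ κ j) (hx : ∀ j, Adm b η d α (κ j) (x j)) (θ : ℝ)
    (hθ : Irrational θ) (ε : ℝ) (hε : 0 < ε) : ∀ᶠ j : ℕ in atTop,
      ‖∑ n ∈ range (b ^ κ j), ((P b (x j).1 0 (κ j) n : ℝ) : ℂ) * e (θ * (((x j).2.2 n : ℤ) : ℝ))‖ ≤ ε := by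
  have hirr : Irrational (θ * (α : ℝ)) := by
    have := hθ.mul_ratCast hα
    exact this
  obtain ⟨k₀, hk₀⟩ := polyE b hb η hη d hd (θ * α) hirr ε hε
  filter_upwards [eventually_ge_atTop k₀] with j hj
  obtain ⟨h1, h2, h3, h4⟩ := hx j
  have hpf := pf_of (x j).2.1 θ
  rw [h2, h3] at hpf
  have h5 := hk₀ (κ j) (hj.trans (hκ j)) (x j).1 h1 _ hpf
  have e1 : ∑ n ∈ range (b ^ κ j), ((P b (x j).1 0 (κ j) n : ℝ) : ℂ) * e (θ * (((x j).2.2 n : ℤ) : ℝ)) =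
      ∑ n ∈ range (b ^ κ j), ((P b (x j).1 0 (κ j) n : ℝ) : ℂ) * ee (θ * (x j).2.1.eval (n : ℝ)) := by
    apply sum_congr rfl
    intro n hn
    rw [e_eq, Int.cast_natCast, h4 n (mem_range.1 hn)]
  rw [e1]
  exact h5

/-- **polynomial values at integers with random digits** -/
theorem digitsP (b : ℕ) (hb : 2 ≤ b) (η : ℝ) (hη : 0 < η) (d : ℕ) (hd : 1 ≤ d) (α : ℚ) (hα : α ≠ 0) :
    (∃ k₀ : ℕ, ∀ k, k₀ ≤ k → ∀ x, Adm b η d α k x →
      1 / 10000 ^ 23 ≤ pr (range (b ^ k)) (P b x.1 0 k) (fun n => 1 ≤ x.2.2 n ∧ Tgt ((x.2.2 n : ℕ) : ℤ))) ∧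
    (∀ r : ℕ, 10 ≤ r → ∀ δ : ℝ, 0 < δ → ∃ k₀ : ℕ, ∀ k, k₀ ≤ k → ∀ x, Adm b η d α k x →
      pr (range (b ^ k)) (P b x.1 0 k) (fun n => ¬ GoodN r (x.2.2 n)) ≤ badN r + δ) ∧
    (∀ r : ℕ, 10 ≤ r → ∀ δ : ℝ, 0 < δ → ∃ k₀ : ℕ, ∀ k, k₀ ≤ k → ∀ x, Adm b η d α k x →
      pr (range (b ^ k)) (P b x.1 0 k) (fun n => ¬ Ex r (x.2.2 n)) ≤ badU r + δ) := by
  have main := fun (κ : ℕ → ℕ) (x : ℕ → (ℕ → ℕ → ℝ) × Polynomial ℝ × (ℕ → ℕ)) (hκ : ∀ j, j ≤ κ j)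
      (hx : ∀ j, Adm b η d α (κ j) (x j)) =>
    nat_laws (Ω := fun j => range (b ^ κ j)) (p := fun j => P b (x j).1 0 (κ j))
      (m := fun j n => (x j).2.2 n) (fun j n _ => P_nonneg (hx j).1 0 (κ j) n)
      (fun j => P_sum (by omega) (hx j).1 0 (κ j)) (fun θ hθ _ ε hε => adm_exp b hb η hη d hd α hα κ x hκ hx θ hθ ε hε)
  refine ⟨?_, fun r hr δ hδ => ?_, fun r hr δ hδ => ?_⟩
  · exact unif2 (Adm b η d α) _ (fun κ x hκ hx => (main κ x hκ hx).1.exists)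
  · exact unif2 (Adm b η d α) _ (fun κ x hκ hx => ((main κ x hκ hx).2.1 r hr δ hδ).exists)
  · exact unif2 (Adm b η d α) _ (fun κ x hκ hx => ((main κ x hκ hx).2.2 r hr δ hδ).exists)

end Pool.Agent.J4.H78.FP
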